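import Mathlib

/-! Algebraic identities behind the Carleman estimate, in a commutative ring with commuting
derivations. -/

namespace Pool.Agent.P.MP_f97e06_gt

open Finset

section
variable {R : Type*} [CommRing R] [Algebra ℝ R] {ι : Type*} [Fintype ι]

theorem der_mul (d : Derivation ℝ R R) (f g : R) : d (f * g) = d f * g + f * d g := by
  rw [Derivation.leibniz]; simp only [smul_eq_mul]; ring

/-- `Y j = ∑ k, a j k * ∂ k v`. -/
def flux (D : ι → Derivation ℝ R R) (a : ι → ι → R) (v : R) (j : ι) : R := ∑ k, a j k * D k v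

/-- divergence -/
def dvg (D : ι → Derivation ℝ R R) (Y : ι → R) : R := ∑ j, D j (Y j)

/-- directional derivative -/
def dir (D : ι → Derivation ℝ R R) (Y : ι → R) (f : R) : R := ∑ j, Y j * D j f

theorem dvg_mul (D : ι → Derivation ℝ R R) (Y : ι → R) (f : R) :
    dvg D (fun j => Y j * f) = dvg D Y * f + dir D Y f := by
  simp only [dvg, dir, der_mul, sum_add_distrib, sum_mul]

theorem dir_mul (D : ι → Derivation ℝ R R) (Y : ι → R) (f g : R) :
    dir D Y (f * g) = dir D Y f * g + f * dir D Y g := by
  simp only [dir, der_mul, mul_add, sum_add_distrib, sum_mul, mul_sum]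
  congr 1 <;> refine sum_congr rfl fun j _ => by ring

/-- the vector field whose divergence appears in the multiplier identity -/
def mulField (D : ι → Derivation ℝ R R) (a : ι → ι → R) (X : ι → R) (q v τ m : R) (j : ι) : R :=
  -(4 * τ) * (flux D a v j * dir D X v) + (2 * τ) * (X j * dir D (flux D a v) v)
    - (2 * τ * m) * (flux D a v j * v) - (2 * τ ^ 3) * (X j * (q * (v * v)))

/-- the quadratic form of the gradient in the multiplier identity -/
def gradForm (D : ι → Derivation ℝ R R) (a : ι → ι → R) (X : ι → R) (m : R) (k l : ι) : R :=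
  4 * (∑ j, a j k * D j (X l)) - 2 * dir D X (a k l) + 2 * (m - dvg D X) * a k l

theorem multiplier_identity (D : ι → Derivation ℝ R R)
    (hD : ∀ i j f, D i (D j f) = D j (D i f)) (a : ι → ι → R) (ha : ∀ j k, a j k = a k j)
    (X : ι → R) (q v τ m : R) (hτ : ∀ j, D j τ = 0) (hm : ∀ j, D j m = 0) :
    2 * (dvg D (flux D a v) + τ ^ 2 * q * v) * (-(2 * τ) * dir D X v - τ * m * v) =
      τ * (∑ k, ∑ l, gradForm D a X m k l * (D k v * D l v))
        + 2 * τ ^ 3 * (dir D X q - (m - dvg D X) * q) * (v * v)
        + dvg D (mulField D a X q v τ m) := by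
  set Y := flux D a v with hY
  have hc : ∀ (c : R), (∀ j, D j c = 0) → ∀ Z : ι → R, dvg D (fun j => c * Z j) = c * dvg D Z := by
    intro c hc Z
    simp only [dvg, der_mul, hc, zero_mul, zero_add, mul_sum]
  have h2' : ∀ j, D j (2 : R) = 0 := fun j => by
    simpa using (D j).map_natCast 2
  have h4' : ∀ j, D j (4 : R) = 0 := fun j => by
    simpa using (D j).map_natCast 4
  have hW : dvg D (mulField D a X q v τ m) =
      -(4 * τ) * dvg D (fun j => Y j * dir D X v) + (2 * τ) * dvg D (fun j => X j * dir D Y v)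
        - (2 * τ * m) * dvg D (fun j => Y j * v)
        - (2 * τ ^ 3) * dvg D (fun j => X j * (q * (v * v))) := by
    rw [← hc, ← hc, ← hc, ← hc]
    · simp only [dvg, mulField, map_add, map_sub, sum_add_distrib, sum_sub_distrib, hY]
    · intro j; simp [hτ, h2', pow_succ]
    · intro j; simp [hτ, hm, h2']
    · intro j; simp [hτ, h2']
    · intro j; simp [hτ, h4']
  set T1 : R := ∑ k, ∑ l, (∑ j, a j k * D j (X l)) * (D k v * D l v) with hT1
  set T2 : R := ∑ j, ∑ l, Y j * X l * D j (D l v) with hT2
  set T3 : R := ∑ k, ∑ l, dir D X (a k l) * (D k v * D l v) with hT3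
  have h2 : dir D Y (dir D X v) = T1 + T2 := by
    have e1 : dir D Y (dir D X v) = (∑ j, ∑ l, Y j * (D j (X l) * D l v)) + T2 := by
      simp only [dir, map_sum, der_mul, mul_sum, mul_add, sum_add_distrib, hT2, mul_assoc]
    rw [e1, hT1]
    congr 1
    simp only [hY, flux, sum_mul]
    rw [sum_comm]
    conv_rhs => rw [sum_comm]
    refine sum_congr rfl fun l _ => ?_
    rw [sum_comm]
    refine sum_congr rfl fun k _ => sum_congr rfl fun j _ => by ring
  have havv : dir D Y v = ∑ k, ∑ l, a k l * (D k v * D l v) := by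
    simp only [dir, hY, flux, sum_mul]
    refine sum_congr rfl fun k _ => sum_congr rfl fun l _ => by ring
  have h4 : dir D X (dir D Y v) = T3 + 2 * T2 := by
    have hdir : ∀ g : ι → R, dir D X (∑ i, g i) = ∑ i, dir D X (g i) := by
      intro g
      simp only [dir, map_sum, mul_sum]
      rw [sum_comm]
    have e2 : T2 = ∑ k, ∑ l, a k l * (dir D X (D k v) * D l v) := by
      simp only [hT2, hY, flux, dir, sum_mul, mul_sum]
      refine sum_congr rfl fun k _ => ?_
      rw [sum_comm]
      refine sum_congr rfl fun l _ => sum_congr rfl fun j _ => ?_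
      rw [hD k j]; ring
    have e3 : T2 = ∑ k, ∑ l, a k l * (D k v * dir D X (D l v)) := by
      rw [e2, sum_comm]
      refine sum_congr rfl fun k _ => sum_congr rfl fun l _ => ?_
      rw [ha l k]; ring
    rw [havv, hdir, two_mul]
    nth_rewrite 1 [e2]
    rw [e3, hT3]
    simp only [hdir, dir_mul, ← sum_add_distrib]
    refine sum_congr rfl fun k _ => sum_congr rfl fun l _ => by ring
  have hG : (∑ k, ∑ l, gradForm D a X m k l * (D k v * D l v)) =
      4 * T1 - 2 * T3 + 2 * (m - dvg D X) * dir D Y v := by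
    rw [havv, hT1, hT3]
    simp only [gradForm, mul_sum, ← sum_add_distrib, ← sum_sub_distrib]
    refine sum_congr rfl fun k _ => sum_congr rfl fun l _ => ?_
    rw [← mul_sum]; ring
  rw [hW, hG, dvg_mul, dvg_mul, dvg_mul, dvg_mul, h2, h4, dir_mul, dir_mul]
  ring

theorem conjugation_identity (D : ι → Derivation ℝ R R) (a : ι → ι → R)
    (ha : ∀ j k, a j k = a k j) (φ w e τ : R) (hτ : ∀ j, D j τ = 0)
    (he : ∀ j, D j e = τ * D j φ * e) :
    dvg D (flux D a (e * w)) - 2 * τ * dir D (flux D a φ) (e * w)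
      - τ * dvg D (flux D a φ) * (e * w) + τ ^ 2 * dir D (flux D a φ) φ * (e * w)
      = e * dvg D (flux D a w) := by
  set X := flux D a φ with hX
  have hdire : ∀ Z : ι → R, dir D Z e = τ * dir D Z φ * e := by
    intro Z
    simp only [dir, he, mul_sum, sum_mul]
    refine sum_congr rfl fun j _ => by ring
  have h1 : flux D a (e * w) = fun j => (flux D a w j + X j * (τ * w)) * e := by
    funext j
    simp only [flux, hX, der_mul, he, sum_mul, add_mul, ← sum_add_distrib]
    refine sum_congr rfl fun k _ => by ring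
  have hsym : dir D (flux D a w) φ = dir D X w := by
    simp only [dir, flux, hX, sum_mul]
    rw [sum_comm]
    refine sum_congr rfl fun j _ => sum_congr rfl fun k _ => ?_
    rw [ha k j]; ring
  have hadd : ∀ Z Z' : ι → R, dvg D (fun j => Z j + Z' j) = dvg D Z + dvg D Z' := by
    intro Z Z'; simp only [dvg, map_add, sum_add_distrib]
  have hadd' : ∀ (Z Z' : ι → R) (f : R), dir D (fun j => Z j + Z' j) f = dir D Z f + dir D Z' f := by
    intro Z Z' f; simp only [dir, add_mul, sum_add_distrib]
  have hsc : ∀ (Z : ι → R) (g f : R), dir D (fun j => Z j * g) f = g * dir D Z f := by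
    intro Z g f; simp only [dir, mul_sum]
    refine sum_congr rfl fun j _ => by ring
  have hdτ : dir D X τ = 0 := by simp [dir, hτ]
  rw [h1, dvg_mul, hadd, dvg_mul, hdire, hadd', hsc, hsym, dir_mul, dir_mul, hdire, hdτ]
  ring

end

end Pool.Agent.P.MP_f97e06_gt
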