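import Pool.Agent.P.MP_f97e06_gt.Algebra

/-! Elementary facts on real quadratic forms, and the convexification of the Carleman weight. -/

namespace Pool.Agent.P.MP_f97e06_gt

open Finset

section
variable {ι : Type*} [Fintype ι]

/-- quadratic form of a matrix -/
def qf (B : ι → ι → ℝ) (ξ : ι → ℝ) : ℝ := ∑ k, ∑ l, B k l * (ξ k * ξ l)

theorem abs_qf_le (B : ι → ι → ℝ) (ξ : ι → ℝ) :
    |qf B ξ| ≤ (∑ k, ∑ l, |B k l|) * ∑ i, ξ i ^ 2 := by
  have h1 : ∀ k, ξ k ^ 2 ≤ ∑ i, ξ i ^ 2 := fun k =>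
    single_le_sum (f := fun i => ξ i ^ 2) (fun i _ => sq_nonneg _) (mem_univ k)
  have h2 : ∀ k l, |ξ k * ξ l| ≤ ∑ i, ξ i ^ 2 := by
    intro k l
    rw [abs_le]
    constructor <;> nlinarith [h1 k, h1 l, sq_nonneg (ξ k + ξ l), sq_nonneg (ξ k - ξ l)]
  unfold qf
  rw [sum_mul]
  refine (abs_sum_le_sum_abs _ _).trans (sum_le_sum fun k _ => ?_)
  rw [sum_mul]
  refine (abs_sum_le_sum_abs _ _).trans (sum_le_sum fun l _ => ?_)
  rw [abs_mul]
  exact mul_le_mul_of_nonneg_left (h2 k l) (abs_nonneg _)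

theorem qf_smul (B : ι → ι → ℝ) (ξ : ι → ℝ) (c : ℝ) : qf B (c • ξ) = c ^ 2 * qf B ξ := by
  simp only [qf, mul_sum, Pi.smul_apply, smul_eq_mul]
  refine sum_congr rfl fun k _ => sum_congr rfl fun l _ => by ring

theorem qf_coercive (a : ι → ι → ℝ) (ha : ∀ ξ : ι → ℝ, ξ ≠ 0 → 0 < qf a ξ) :
    ∃ lam : ℝ, 0 < lam ∧ ∀ ξ : ι → ℝ, lam * ∑ i, ξ i ^ 2 ≤ qf a ξ := by
  have hcont : Continuous (qf a) := by unfold qf; fun_prop
  have hc2 : Continuous (fun ξ : ι → ℝ => ∑ i, ξ i ^ 2) := by fun_prop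
  set S : Set (ι → ℝ) := {ξ | ∑ i, ξ i ^ 2 = 1} with hS
  have hSc : IsCompact S := by
    refine (isCompact_closedBall (0 : ι → ℝ) 1).of_isClosed_subset
      (isClosed_eq hc2 continuous_const) ?_
    intro ξ hξ
    rw [mem_closedBall_zero_iff, pi_norm_le_iff_of_nonneg zero_le_one]
    intro k
    have h1 : ξ k ^ 2 ≤ ∑ i, ξ i ^ 2 :=
      single_le_sum (f := fun i => ξ i ^ 2) (fun i _ => sq_nonneg _) (mem_univ k)
    rw [hξ] at h1
    exact abs_le_one_iff_mul_self_le_one.2 (by nlinarith)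
  have hscale : ∀ ξ : ι → ℝ, 0 < ∑ i, ξ i ^ 2 →
      (Real.sqrt (∑ i, ξ i ^ 2))⁻¹ • ξ ∈ S := by
    intro ξ hξ
    simp only [hS, Set.mem_ofPred_eq, Pi.smul_apply, smul_eq_mul, mul_pow, ← mul_sum, inv_pow,
      Real.sq_sqrt hξ.le]
    exact inv_mul_cancel₀ hξ.ne'
  have hzero : ∀ ξ : ι → ℝ, ∑ i, ξ i ^ 2 = 0 → ξ = 0 := by
    intro ξ hξ
    funext k
    have := (sum_eq_zero_iff_of_nonneg (fun i _ => sq_nonneg (ξ i))).1 hξ k (mem_univ k)
    simpa using this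
  rcases S.eq_empty_or_nonempty with he | hne
  · refine ⟨1, one_pos, fun ξ => ?_⟩
    rcases (sum_nonneg (fun i (_ : i ∈ univ) => sq_nonneg (ξ i))).eq_or_lt with h | h
    · rw [← h, hzero ξ h.symm]; simp [qf]
    · have := hscale ξ h
      rw [he] at this
      exact this.elim
  · obtain ⟨ξ0, hξ0, hmin⟩ := hSc.exists_isMinOn hne hcont.continuousOn
    have h0 : ξ0 ≠ 0 := by
      rintro rfl
      simp [hS] at hξ0
    refine ⟨qf a ξ0, ha ξ0 h0, fun ξ => ?_⟩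
    rcases (sum_nonneg (fun i (_ : i ∈ univ) => sq_nonneg (ξ i))).eq_or_lt with h | h
    · rw [← h, hzero ξ h.symm]; simp [qf]
    · have h1 : qf a ξ0 ≤ qf a ((Real.sqrt (∑ i, ξ i ^ 2))⁻¹ • ξ) := hmin (hscale ξ h)
      rw [qf_smul, inv_pow, Real.sq_sqrt h.le] at h1
      have := mul_le_mul_of_nonneg_right h1 h.le
      rwa [mul_right_comm, inv_mul_cancel₀ h.ne', one_mul] at this

theorem qf_add (B C : ι → ι → ℝ) (ξ : ι → ℝ) :
    qf (fun k l => B k l + C k l) ξ = qf B ξ + qf C ξ := by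
  simp only [qf, add_mul, sum_add_distrib]

theorem qf_const_mul (c : ℝ) (B : ι → ι → ℝ) (ξ : ι → ℝ) :
    qf (fun k l => c * B k l) ξ = c * qf B ξ := by
  simp only [qf, mul_sum, mul_assoc]

theorem qf_rank_one (w ξ : ι → ℝ) : qf (fun k l => w k * w l) ξ = (∑ k, w k * ξ k) ^ 2 := by
  simp only [qf, sq, sum_mul_sum]
  refine sum_congr rfl fun k _ => sum_congr rfl fun l _ => by ring

theorem qf_nonneg_of_close (Q Q0 : ι → ι → ℝ) (h0 : ∀ ξ : ι → ℝ, ∑ i, ξ i ^ 2 ≤ qf Q0 ξ)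
    (h : ∑ k, ∑ l, |Q k l - Q0 k l| ≤ 1) (ξ : ι → ℝ) : 0 ≤ qf Q ξ := by
  have e : qf Q ξ = qf Q0 ξ + qf (fun k l => Q k l - Q0 k l) ξ := by
    rw [← qf_add]; congr 1; funext k l; ring
  have h1 := abs_qf_le (fun k l => Q k l - Q0 k l) ξ
  have h2 : 0 ≤ ∑ i, ξ i ^ 2 := sum_nonneg fun i _ => sq_nonneg _
  have h3 := mul_le_mul_of_nonneg_right h h2
  have h4 := neg_abs_le (qf (fun k l => Q k l - Q0 k l) ξ)
  have := h0 ξ
  linarith

end

section
variable {R : Type*} [CommRing R] [Algebra ℝ R] {ι : Type*} [Fintype ι]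

theorem convexify (D : ι → Derivation ℝ R R) (a : ι → ι → R)
    (e : R →+* ℝ) (φ0 t κ : R) (hκ : ∀ j, D j κ = 0) (ht : e t = 0)
    (hφ : ∀ j, e (D j φ0) = e (D j t)) :
    (∀ l, e (flux D a (φ0 + κ * (t * t)) l) = e (flux D a φ0 l)) ∧
    (∀ j l, e (D j (flux D a (φ0 + κ * (t * t)) l)) =
      e (D j (flux D a φ0 l)) + 2 * e κ * e (D j φ0) * e (flux D a φ0 l)) ∧
    e (dir D (flux D a (φ0 + κ * (t * t))) (φ0 + κ * (t * t))) = e (dir D (flux D a φ0) φ0) ∧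
    e (dir D (flux D a (φ0 + κ * (t * t))) (dir D (flux D a (φ0 + κ * (t * t))) (φ0 + κ * (t * t))))
      = e (dir D (flux D a φ0) (dir D (flux D a φ0) φ0))
        + 4 * e κ * e (dir D (flux D a φ0) φ0) ^ 2 := by
  have h2' : ∀ j, D j (2 : R) = 0 := fun j => by
    simpa using (D j).map_natCast 2
  have hD : ∀ j, D j (φ0 + κ * (t * t)) = D j φ0 + t * (2 * κ * D j t) := by
    intro j; simp only [map_add, der_mul, hκ]; ring
  have hX : ∀ l, flux D a (φ0 + κ * (t * t)) l = flux D a φ0 l + t * (2 * κ * flux D a t l) := by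
    intro l
    simp only [flux, hD, mul_sum, ← sum_add_distrib]
    refine sum_congr rfl fun k _ => by ring
  have hXt : ∀ l, e (flux D a t l) = e (flux D a φ0 l) := by
    intro l; simp only [flux, map_sum, map_mul, hφ]
  have e1 : ∀ l, e (flux D a (φ0 + κ * (t * t)) l) = e (flux D a φ0 l) := by
    intro l; simp [hX, ht]
  have e2 : ∀ j l, e (D j (flux D a (φ0 + κ * (t * t)) l)) =
      e (D j (flux D a φ0 l)) + 2 * e κ * e (D j φ0) * e (flux D a φ0 l) := by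
    intro j l
    rw [hX, map_add, der_mul]
    simp only [map_add, map_mul, ht, hXt, hφ, map_ofNat]
    ring
  have e0 : ∀ j, e (D j (φ0 + κ * (t * t))) = e (D j φ0) := by
    intro j; simp [hD, ht]
  have e00 : ∀ l j, e (D l (D j (φ0 + κ * (t * t)))) =
      e (D l (D j φ0)) + 2 * e κ * e (D l φ0) * e (D j φ0) := by
    intro l j
    rw [hD, map_add, der_mul]
    simp only [map_add, map_mul, ht, hφ, map_ofNat]
    ring
  generalize φ0 + κ * (t * t) = φ at *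
  refine ⟨e1, e2, ?_, ?_⟩
  · simp only [dir, map_sum, map_mul, e1, e0]
  · have e3 : ∀ l, e (D l (dir D (flux D a φ) φ)) =
        e (D l (dir D (flux D a φ0) φ0)) + 4 * e κ * e (D l φ0) * e (dir D (flux D a φ0) φ0) := by
      intro l
      simp only [dir, map_sum, der_mul, map_add, map_mul, e1, e2, e0, e00, mul_sum,
        ← sum_add_distrib]
      refine sum_congr rfl fun j _ => by ring
    have e4 : ∀ (Z : ι → R) (f : R), e (dir D Z f) = ∑ l, e (Z l) * e (D l f) := by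
      intro Z f; simp only [dir, map_sum, map_mul]
    rw [e4]
    simp only [e1, e3, mul_add, sum_add_distrib]
    rw [← e4, sq]
    congr 1
    nth_rewrite 2 [e4]
    simp only [mul_sum, sum_mul]
    refine sum_congr rfl fun j _ => by ring

end

end Pool.Agent.P.MP_f97e06_gt
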