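import Pool.Agent.P.MP_f97e06_gt.Smooth
import Pool.Agent.P.MP_f97e06_gt.QuadForm

/-! Local unique continuation across a sphere for `∂_j (a^{jk} ∂_k u) = c u`, by a Carleman
estimate. -/

namespace Pool.Agent.P.MP_f97e06_gt

open scoped ContDiff Topology
open MeasureTheory Filter Finset

variable {n : ℕ}

section ideal
variable {I : Ideal (Sm n)} (hI : ∀ f ∈ I, ∀ j, D j f ∈ I)
include hI

theorem flux_mem (a : Fin n → Fin n → Sm n) {v : Sm n} (hv : v ∈ I) (j : Fin n) :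
    flux D a v j ∈ I :=
  Ideal.sum_mem _ fun k _ => Ideal.mul_mem_left _ _ (hI v hv k)

theorem dir_mem (X : Fin n → Sm n) {v : Sm n} (hv : v ∈ I) : dir D X v ∈ I :=
  Ideal.sum_mem _ fun k _ => Ideal.mul_mem_left _ _ (hI v hv k)

theorem dvg_mem {Y : Fin n → Sm n} (hY : ∀ j, Y j ∈ I) : dvg D Y ∈ I :=
  Ideal.sum_mem _ fun k _ => hI _ (hY k) k

theorem mulField_mem (a : Fin n → Fin n → Sm n) (X : Fin n → Sm n) (q τ m : Sm n) {v : Sm n}
    (hv : v ∈ I) (j : Fin n) : mulField D a X q v τ m j ∈ I := by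
  unfold mulField
  refine Ideal.sub_mem _ (Ideal.sub_mem _ (Ideal.add_mem _ ?_ ?_) ?_) ?_
  · exact Ideal.mul_mem_left _ _ (Ideal.mul_mem_left _ _ (dir_mem hI X hv))
  · exact Ideal.mul_mem_left _ _ (Ideal.mul_mem_left _ _ (dir_mem hI _ hv))
  · exact Ideal.mul_mem_left _ _ (Ideal.mul_mem_left _ _ hv)
  · exact Ideal.mul_mem_left _ _ (Ideal.mul_mem_left _ _ (Ideal.mul_mem_left _ _
      (Ideal.mul_mem_left _ _ hv)))

end ideal

theorem integral_dvg_eq_zero {Y : Fin n → Sm n} (hY : ∀ j, Y j ∈ cptI n) :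
    ∫ y, evl y (dvg D Y) = 0 := by
  simp only [dvg, map_sum]
  rw [integral_finsetSum _ fun j _ => integrable_of_mem_cptI (D_mem_cptI (hY j) j)]
  exact sum_eq_zero fun j _ => integral_D_eq_zero (hY j) j

theorem dvg_flux_sub (a : Fin n → Fin n → Sm n) (f g : Sm n) :
    dvg D (flux D a (f - g)) = dvg D (flux D a f) - dvg D (flux D a g) := by
  simp only [dvg, flux, map_sub, mul_sub, sum_sub_distrib]

theorem real_ineq (τ C m G dW Pv Xv q dX Xq Pw cc ee ww : ℝ) (hτ : 0 ≤ τ) (hG : 0 ≤ G)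
    (hQ : 1 ≤ Xq - (m - dX) * q) (hc : |cc| ≤ C) (hf : |m - dX| ≤ C)
    (i1 : 2 * (Pv + τ ^ 2 * q * (ee * ww)) * (-(2 * τ) * Xv - τ * m * (ee * ww)) =
      τ * G + 2 * τ ^ 3 * (Xq - (m - dX) * q) * (ee * ww * (ee * ww)) + dW)
    (i2 : Pv - 2 * τ * Xv - τ * dX * (ee * ww) + τ ^ 2 * q * (ee * ww) = ee * Pw) :
    2 * (τ ^ 3 - C ^ 2 * (1 + τ) ^ 2) * (ee * ww) ^ 2 + dW ≤ 2 * (ee * (Pw - cc * ww)) ^ 2 := by
  have hSA : (Pv + τ ^ 2 * q * (ee * ww)) + (-(2 * τ) * Xv - τ * m * (ee * ww)) =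
      ee * (Pw - cc * ww) + (cc - τ * (m - dX)) * (ee * ww) := by
    linear_combination i2
  generalize ee * ww = v at *
  generalize ee * (Pw - cc * ww) = r at *
  generalize Pv + τ ^ 2 * q * v = S at *
  generalize -(2 * τ) * Xv - τ * m * v = A at *
  have b0 : 2 * S * A ≤ (S + A) ^ 2 := by nlinarith [sq_nonneg S, sq_nonneg A]
  have b1 : 2 * S * A ≤ 2 * r ^ 2 + 2 * ((cc - τ * (m - dX)) * v) ^ 2 := by
    rw [hSA] at b0
    generalize (cc - τ * (m - dX)) * v = s at *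
    nlinarith [sq_nonneg (r - s)]
  have b2 : (cc - τ * (m - dX)) ^ 2 ≤ C ^ 2 * (1 + τ) ^ 2 := by
    rw [← mul_pow, ← sq_abs (cc - τ * (m - dX))]
    refine pow_le_pow_left₀ (abs_nonneg _) ?_ 2
    calc |cc - τ * (m - dX)| ≤ |cc| + |τ * (m - dX)| := abs_sub _ _
      _ = |cc| + τ * |m - dX| := by rw [abs_mul, abs_of_nonneg hτ]
      _ ≤ C + τ * C := add_le_add hc (mul_le_mul_of_nonneg_left hf hτ)
      _ = C * (1 + τ) := by ring
  have b3 : ((cc - τ * (m - dX)) * v) ^ 2 ≤ C ^ 2 * (1 + τ) ^ 2 * v ^ 2 := by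
    rw [mul_pow]; exact mul_le_mul_of_nonneg_right b2 (sq_nonneg _)
  have b4 : 2 * τ ^ 3 * v ^ 2 ≤ 2 * τ ^ 3 * (Xq - (m - dX) * q) * (v * v) := by
    have h0 : 0 ≤ 2 * τ ^ 3 * v ^ 2 := by positivity
    have := mul_le_mul_of_nonneg_left hQ h0
    linarith
  have b5 : 0 ≤ τ * G := mul_nonneg hτ hG
  linarith

/-- The pointwise Carleman inequality. -/
theorem pointwise_carleman (a : Fin n → Fin n → Sm n) (ha : ∀ j k, a j k = a k j)
    (φ c w : Sm n) (m τ C : ℝ) (hτ : 0 ≤ τ) (y : Eu n)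
    (h : w ∈ germ0 y ∨
      ((∀ ξ, 0 ≤ qf (fun k l => evl y (gradForm D a (flux D a φ) (cst m) k l)) ξ) ∧
       1 ≤ evl y (dir D (flux D a φ) (dir D (flux D a φ) φ)
          - (cst m - dvg D (flux D a φ)) * dir D (flux D a φ) φ) ∧
       |evl y c| ≤ C ∧ |evl y (cst m - dvg D (flux D a φ))| ≤ C)) :
    2 * (τ ^ 3 - C ^ 2 * (1 + τ) ^ 2) * (Real.exp (τ * evl y φ) * evl y w) ^ 2
      + evl y (dvg D (mulField D a (flux D a φ) (dir D (flux D a φ) φ)
          (sexp (cst τ * φ) * w) (cst τ) (cst m)))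
      ≤ 2 * (Real.exp (τ * evl y φ) * evl y (dvg D (flux D a w) - c * w)) ^ 2 := by
  set e := sexp (cst τ * φ) with he
  have hev : evl y e = Real.exp (τ * evl y φ) := rfl
  rcases h with h | ⟨hG, hQ, hc, hf⟩
  · have h1 : e * w ∈ germ0 y := Ideal.mul_mem_left _ _ h
    have h2 := germ0_self (dvg_mem (fun f hf => D_mem_germ0 hf)
      (mulField_mem (fun f hf => D_mem_germ0 hf) a (flux D a φ) (dir D (flux D a φ) φ)
        (cst τ) (cst m) h1))
    rw [h2, germ0_self h]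
    simp only [mul_zero, ne_eq, OfNat.ofNat_ne_zero, not_false_eq_true, zero_pow, add_zero]
    positivity
  · have hDe : ∀ j, D j e = cst τ * D j φ * e := by
      intro j; rw [he, D_sexp, der_mul, D_cst]; ring
    have i1 := congrArg (evl y) (multiplier_identity D D_comm a ha (flux D a φ)
      (dir D (flux D a φ) φ) (e * w) (cst τ) (cst m) (fun j => D_cst j τ) (fun j => D_cst j m))
    have i2 := congrArg (evl y) (conjugation_identity D a ha φ w e (cst τ)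
      (fun j => D_cst j τ) hDe)
    have hG' := hG (fun k => evl y (D k (e * w)))
    simp only [qf] at hG'
    simp only [map_add, map_mul, map_sub, map_pow, map_neg, map_ofNat, evl_cst, map_sum] at i1 i2 hQ hf ⊢
    rw [← hev]
    exact real_ineq _ _ _ _ _ _ _ _ _ _ _ _ _ _ hτ hG' hQ hc hf i1 i2

end Pool.Agent.P.MP_f97e06_gt
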