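import Pool.Agent.P.MP_f97e06_gt.Algebra

/-! The ring of smooth functions on Euclidean space with its coordinate derivations. -/

namespace Pool.Agent.P.MP_f97e06_gt

open scoped ContDiff Topology
open MeasureTheory Filter

abbrev Eu (n : ℕ) := EuclideanSpace ℝ (Fin n)

variable {n : ℕ}

/-- smooth real functions on `ℝ^n`, as a subalgebra -/
def SmA (n : ℕ) : Subalgebra ℝ (Eu n → ℝ) where
  carrier := {f | ContDiff ℝ ∞ f}
  mul_mem' := fun {f g} (hf : ContDiff ℝ ∞ f) (hg : ContDiff ℝ ∞ g) =>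
    show ContDiff ℝ ∞ (fun x => f x * g x) from hf.mul hg
  add_mem' := fun {f g} (hf : ContDiff ℝ ∞ f) (hg : ContDiff ℝ ∞ g) =>
    show ContDiff ℝ ∞ (fun x => f x + g x) from hf.add hg
  algebraMap_mem' := fun c => show ContDiff ℝ ∞ (fun _ : Eu n => c) from contDiff_const

/-- smooth real functions on `ℝ^n` -/
def Sm (n : ℕ) : Type := SmA n

noncomputable instance : CommRing (Sm n) := inferInstanceAs (CommRing (SmA n))
noncomputable instance : Algebra ℝ (Sm n) := inferInstanceAs (Algebra ℝ (SmA n))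

/-- the underlying function -/
def Sm.fn (f : Sm n) : Eu n → ℝ := (show SmA n from f).1

/-- a smooth function as an element of `Sm n` -/
def Sm.mk (f : Eu n → ℝ) (hf : ContDiff ℝ ∞ f) : Sm n := (⟨f, hf⟩ : SmA n)

@[simp] theorem Sm.fn_mk (f : Eu n → ℝ) (hf : ContDiff ℝ ∞ f) : (Sm.mk f hf).fn = f := rfl

theorem Sm.ext {f g : Sm n} (h : ∀ y, f.fn y = g.fn y) : f = g := Subtype.ext (funext h)

theorem Sm.smooth (f : Sm n) : ContDiff ℝ ∞ f.fn := (show SmA n from f).2

theorem Sm.diff (f : Sm n) : Differentiable ℝ f.fn := f.smooth.differentiable (by simp)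

theorem Sm.cont (f : Sm n) : Continuous f.fn := f.smooth.continuous

theorem Sm.fn_add (f g : Sm n) : (f + g).fn = f.fn + g.fn := rfl
theorem Sm.fn_mul (f g : Sm n) : (f * g).fn = f.fn * g.fn := rfl
theorem Sm.fn_smul (c : ℝ) (f : Sm n) : (c • f).fn = c • f.fn := rfl
theorem Sm.fn_zero : (0 : Sm n).fn = 0 := rfl

/-- evaluation at a point -/
noncomputable def evl (y : Eu n) : Sm n →+* ℝ where
  toFun f := f.fn y
  map_one' := rfl
  map_mul' _ _ := rfl
  map_zero' := rfl
  map_add' _ _ := rfl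

theorem evl_apply (y : Eu n) (f : Sm n) : evl y f = f.fn y := rfl

theorem evl_fun (f : Sm n) : (fun y => evl y f) = f.fn := rfl

theorem evl_cont (f : Sm n) : Continuous fun y => evl y f := f.cont

@[simp] theorem evl_mk (y : Eu n) (f : Eu n → ℝ) (hf : ContDiff ℝ ∞ f) :
    evl y (Sm.mk f hf) = f y := rfl

/-- unit coordinate vector -/
noncomputable abbrev ev (j : Fin n) : Eu n := EuclideanSpace.single j (1 : ℝ)

theorem contDiff_pd {f : Eu n → ℝ} (hf : ContDiff ℝ ∞ f) (j : Fin n) :
    ContDiff ℝ ∞ (fun y => fderiv ℝ f y (ev j)) :=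
  (hf.fderiv_right (m := ∞) (by simp)).clm_apply contDiff_const

/-- the coordinate derivative as a linear map -/
noncomputable def Dl (j : Fin n) : Sm n →ₗ[ℝ] Sm n where
  toFun f := Sm.mk (fun y => fderiv ℝ f.fn y (ev j)) (contDiff_pd f.smooth j)
  map_add' f g := by
    refine Sm.ext fun y => ?_
    have := fderiv_add (𝕜 := ℝ) (f.diff y) (g.diff y)
    simp only [Sm.fn_add, Sm.fn_mk, Pi.add_apply]
    rw [this]; rfl
  map_smul' c f := by
    refine Sm.ext fun y => ?_
    have := fderiv_const_smul (𝕜 := ℝ) (f.diff y) c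
    simp only [Sm.fn_smul, Sm.fn_mk, RingHom.id_apply, Pi.smul_apply]
    rw [this]; rfl

/-- the coordinate derivative as a derivation -/
noncomputable def D (j : Fin n) : Derivation ℝ (Sm n) (Sm n) :=
  Derivation.mk' (Dl j) (by
    intro f g
    refine Sm.ext fun y => ?_
    have := fderiv_mul (𝕜 := ℝ) (f.diff y) (g.diff y)
    change fderiv ℝ (f.fn * g.fn) y (ev j) =
      f.fn y * fderiv ℝ g.fn y (ev j) + g.fn y * fderiv ℝ f.fn y (ev j)
    rw [this]; rfl)

theorem D_apply (j : Fin n) (f : Sm n) (y : Eu n) :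
    evl y (D j f) = fderiv ℝ f.fn y (ev j) := rfl

theorem D_fn (j : Fin n) (f : Sm n) : (D j f).fn = fun y => fderiv ℝ f.fn y (ev j) := rfl

theorem D_comm (i j : Fin n) (f : Sm n) : D i (D j f) = D j (D i f) := by
  refine Sm.ext fun y => ?_
  have hs : IsSymmSndFDerivAt ℝ f.fn y :=
    f.smooth.contDiffAt.isSymmSndFDerivAt (by
      simp only [minSmoothness_of_isRCLikeNormedField]
      exact WithTop.coe_le_coe.2 (le_top : (2 : ℕ∞) ≤ ⊤))
  have hd : DifferentiableAt ℝ (fderiv ℝ f.fn) y :=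
    ((f.smooth.fderiv_right (m := ∞) (by simp)).differentiable (by simp)) y
  have key : ∀ a b : Eu n, fderiv ℝ (fun z => fderiv ℝ f.fn z b) y a =
      fderiv ℝ (fderiv ℝ f.fn) y a b := by
    intro a b
    rw [fderiv_clm_apply hd (differentiableAt_const b)]
    simp
  change fderiv ℝ (fun z => fderiv ℝ f.fn z (ev j)) y (ev i) =
    fderiv ℝ (fun z => fderiv ℝ f.fn z (ev i)) y (ev j)
  rw [key, key, hs.eq]

theorem fderiv_eq_sum (f : Sm n) (y h : Eu n) :
    fderiv ℝ f.fn y h = ∑ j, h j * evl y (D j f) := by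
  have : h = ∑ j, h j • ev j := by
    ext i; simp [Pi.single_apply]
  conv_lhs => rw [this]
  simp [D_apply]

/-- constants -/
noncomputable def cst (c : ℝ) : Sm n := algebraMap ℝ (Sm n) c

@[simp] theorem evl_cst (y : Eu n) (c : ℝ) : evl y (cst c) = c := rfl

@[simp] theorem D_cst (j : Fin n) (c : ℝ) : D j (cst c : Sm n) = 0 := (D j).map_algebraMap c

/-- the exponential of a smooth function -/
noncomputable def sexp (f : Sm n) : Sm n := Sm.mk (fun y => Real.exp (f.fn y)) f.smooth.exp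

theorem evl_sexp (y : Eu n) (f : Sm n) : evl y (sexp f) = Real.exp (evl y f) := rfl

theorem D_sexp (j : Fin n) (f : Sm n) : D j (sexp f) = D j f * sexp f := by
  refine Sm.ext fun y => ?_
  change fderiv ℝ (fun y => Real.exp (f.fn y)) y (ev j) =
    fderiv ℝ f.fn y (ev j) * Real.exp (f.fn y)
  rw [fderiv_exp (f.diff y)]
  simp [mul_comm]

/-- the coordinate functions -/
noncomputable def crd (i : Fin n) : Sm n :=
  Sm.mk (EuclideanSpace.proj (𝕜 := ℝ) i : Eu n →L[ℝ] ℝ) (ContinuousLinearMap.contDiff _)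

@[simp] theorem evl_crd (y : Eu n) (i : Fin n) : evl y (crd i) = y i := rfl

theorem D_crd (j i : Fin n) : D j (crd i : Sm n) = if i = j then 1 else 0 := by
  refine Sm.ext fun y => ?_
  change fderiv ℝ (EuclideanSpace.proj (𝕜 := ℝ) i : Eu n →L[ℝ] ℝ) y (ev j) = evl y _
  rw [ContinuousLinearMap.fderiv]
  by_cases h : i = j <;> simp [h]

/-- a bump function as a smooth function -/
noncomputable def bump {y : Eu n} (χ : ContDiffBump y) : Sm n := Sm.mk χ χ.contDiff

theorem evl_bump {y : Eu n} (χ : ContDiffBump y) (z : Eu n) : evl z (bump χ) = χ z := rfl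

/-- A function smooth near a point agrees near it with a globally smooth function. -/
theorem exists_Sm_eventuallyEq {f : Eu n → ℝ} {U : Set (Eu n)} (hU : IsOpen U) {y : Eu n}
    (hy : y ∈ U) (hf : ContDiffOn ℝ ∞ f U) : ∃ g : Sm n, g.fn =ᶠ[𝓝 y] f := by
  obtain ⟨r, hr, hrU⟩ := Metric.nhds_basis_closedBall.mem_iff.1 (hU.mem_nhds hy)
  let χ : ContDiffBump y := ⟨r / 2, r, by linarith, by linarith⟩
  refine ⟨Sm.mk (fun z => χ z * f z) ?_, ?_⟩
  · rw [contDiff_iff_contDiffAt]
    intro z
    by_cases hz : z ∈ U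
    · exact χ.contDiffAt.mul (hf.contDiffAt (hU.mem_nhds hz))
    · have hz' : z ∉ tsupport χ := by
        rw [χ.tsupport_eq]; exact fun h => hz (hrU h)
      have := notMem_tsupport_iff_eventuallyEq.1 hz'
      refine (contDiffAt_const (c := (0 : ℝ))).congr_of_eventuallyEq ?_
      filter_upwards [this] with w hw
      simp [hw]
  · filter_upwards [χ.eventuallyEq_one] with z hz
    simp [hz]

/-- functions vanishing near a point -/
def germ0 (y : Eu n) : Ideal (Sm n) where
  carrier := {f | ∀ᶠ z in 𝓝 y, evl z f = 0}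
  add_mem' := by
    intro f g hf hg
    filter_upwards [hf, hg] with z h1 h2
    rw [map_add, h1, h2, add_zero]
  zero_mem' := Eventually.of_forall fun z => map_zero _
  smul_mem' := by
    intro c f hf
    filter_upwards [hf] with z h1
    rw [smul_eq_mul, map_mul, h1, mul_zero]

theorem mem_germ0 {y : Eu n} {f : Sm n} : f ∈ germ0 y ↔ ∀ᶠ z in 𝓝 y, evl z f = 0 := Iff.rfl

theorem D_mem_germ0 {y : Eu n} {f : Sm n} (hf : f ∈ germ0 y) (j : Fin n) : D j f ∈ germ0 y := by
  have h : f.fn =ᶠ[𝓝 y] fun _ => 0 := hf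
  filter_upwards [h.fderiv (𝕜 := ℝ)] with z hz
  rw [D_apply, hz]; simp

theorem germ0_self {y : Eu n} {f : Sm n} (hf : f ∈ germ0 y) : evl y f = 0 :=
  (mem_germ0.1 hf).self_of_nhds

theorem germ0_eventually {y : Eu n} {f : Sm n} (hf : f ∈ germ0 y) :
    ∀ᶠ z in 𝓝 y, f ∈ germ0 z := (mem_germ0.1 hf).eventually_nhds

/-- compactly supported functions -/
def cptI (n : ℕ) : Ideal (Sm n) where
  carrier := {f | HasCompactSupport f.fn}
  add_mem' := fun hf hg => HasCompactSupport.add hf hg
  zero_mem' := HasCompactSupport.zero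
  smul_mem' := fun c _ hf => HasCompactSupport.mul_left (f := c.fn) hf

theorem D_mem_cptI {f : Sm n} (hf : f ∈ cptI n) (j : Fin n) : D j f ∈ cptI n :=
  (HasCompactSupport.fderiv ℝ hf).comp_left (g := fun L : Eu n →L[ℝ] ℝ => L (ev j)) rfl

theorem integrable_of_mem_cptI {f : Sm n} (hf : f ∈ cptI n) : Integrable (fun y => evl y f) :=
  f.cont.integrable_of_hasCompactSupport hf

theorem integral_D_eq_zero {f : Sm n} (hf : f ∈ cptI n) (j : Fin n) :
    ∫ y, evl y (D j f) = 0 := by
  have := integral_mul_fderiv_eq_neg_fderiv_mul_of_integrable (μ := (volume : Measure (Eu n)))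
    (f := fun _ : Eu n => (1 : ℝ)) (g := f.fn) (v := ev j) (by simp)
    (by
      simp only [one_mul]
      exact integrable_of_mem_cptI (D_mem_cptI hf j))
    (by
      simp only [one_mul]
      exact integrable_of_mem_cptI hf)
    (fun _ _ => differentiableAt_const _) (fun x _ => f.diff x)
  simpa [D_apply] using this

end Pool.Agent.P.MP_f97e06_gt
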