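import Pool.Agent.P.MP_f97e06_gt.Defs
import Pool.Agent.P.MP_f97e06_gt.Smooth
import Pool.Agent.P.MP_f97e06_gt.QuadForm

/-! The metric matrix in a chart is smooth and positive definite. -/

namespace Pool.Agent.P.MP_f97e06_gt

open scoped Manifold ContDiff Topology
open Filter Finset Bundle

variable {n : ℕ} {M : Type*} [TopologicalSpace M] [ChartedSpace (Eu n) M]
  [IsManifold (𝓡 n) ∞ M]

theorem metricMatrix_apply (g : RiemMetric (Eu n) M) (e : OpenPartialHomeomorph M (Eu n)) (y : Eu n)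
    (j k : Fin n) : metricMatrix g e y j k = g.inner (e.symm y)
      (mfderiv (𝓡 n) (𝓡 n) e.symm y (ev j)) (mfderiv (𝓡 n) (𝓡 n) e.symm y (ev k)) := rfl

theorem coordVec_smooth (p : M) (v : Eu n) :
    ContMDiffOn (𝓡 n) (𝓡 n).tangent ∞ (fun y : Eu n => (TotalSpace.mk' (Eu n)
      ((chartAt (Eu n) p).symm y) (mfderiv (𝓡 n) (𝓡 n) (chartAt (Eu n) p).symm y v) :
        TangentBundle (𝓡 n) M)) (chartAt (Eu n) p).target := by
  have ho := (chartAt (Eu n) p).open_target
  have h1 := (contMDiffOn_chart_symm (I := 𝓡 n) (n := ∞) (x := p)).contMDiffOn_tangentMapWithin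
    (m := ∞) (by simp) ho.uniqueMDiffOn
  have h2 : ContMDiff (𝓡 n) (𝓡 n).tangent ∞
      (fun y : Eu n => (TotalSpace.mk' (Eu n) y v : TangentBundle (𝓡 n) (Eu n))) := by
    rw [contMDiff_vectorSpace_iff_contDiff]
    exact contDiff_const
  refine (h1.comp h2.contMDiffOn (fun y hy => hy)).congr fun y hy => ?_
  simp only [Function.comp, tangentMapWithin, mfderivWithin_of_isOpen ho hy]

theorem metricMatrix_smooth (g : RiemMetric (Eu n) M) (p : M) (j k : Fin n) :
    ContDiffOn ℝ ∞ (fun y => metricMatrix g (chartAt (Eu n) p) y j k) (chartAt (Eu n) p).target := by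
  rw [← contMDiffOn_iff_contDiffOn]
  intro y hy
  have hb := contMDiffOn_chart_symm (I := 𝓡 n) (n := ∞) (x := p) y hy
  have : ContMDiffWithinAt (𝓡 n) ((𝓡 n).prod 𝓘(ℝ)) ∞
      (fun m => TotalSpace.mk' ℝ (E := Bundle.Trivial M ℝ) ((chartAt (Eu n) p).symm m)
        (g.inner ((chartAt (Eu n) p).symm m)
          (mfderiv (𝓡 n) (𝓡 n) (chartAt (Eu n) p).symm m (ev j))
          (mfderiv (𝓡 n) (𝓡 n) (chartAt (Eu n) p).symm m (ev k))))
        (chartAt (Eu n) p).target y := by
    apply ContMDiffWithinAt.clm_bundle_apply₂ (F₁ := Eu n) (F₂ := Eu n)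
    · exact ContMDiffAt.comp_contMDiffWithinAt y g.contMDiff.contMDiffAt hb
    · exact coordVec_smooth p _ y hy
    · exact coordVec_smooth p _ y hy
  simp only [contMDiffWithinAt_totalSpace] at this
  exact this.2

theorem metricMatrix_posDef (g : RiemMetric (Eu n) M) (p : M) {y : Eu n}
    (hy : y ∈ (chartAt (Eu n) p).target) : (metricMatrix g (chartAt (Eu n) p) y).PosDef := by
  refine Matrix.PosDef.of_dotProduct_mulVec_pos ?_ fun x hx => ?_
  · ext j k
    simp only [metricMatrix_apply, Matrix.conjTranspose_apply, star_trivial]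
    exact g.symm _ _ _
  · have hinj := (mdifferentiable_chart (I := 𝓡 n) p).symm.mfderiv_injective (x := y) hy
    set L := mfderiv (𝓡 n) (𝓡 n) (chartAt (Eu n) p).symm y with hL
    let v : Eu n := ∑ j, x j • ev j
    have hv : v ≠ 0 := by
      intro h
      apply hx
      funext i
      have := congrArg (fun w : Eu n => w i) h
      simpa [v, Pi.single_apply] using this
    have hLv : L v ≠ 0 := fun h => hv (hinj (h.trans (map_zero L).symm))
    have := g.pos _ _ hLv
    refine lt_of_lt_of_eq this ?_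
    have e : L v = ∑ j, x j • L (ev j) := by
      have : L v = L (∑ j, x j • ev j) := rfl
      rw [this]
      erw [map_sum]
      exact sum_congr rfl fun j _ => map_smul L _ _
    rw [e]
    simp only [map_sum, map_smul, FunLike.coe_sum, Finset.sum_apply,
      smul_apply, smul_eq_mul, star_trivial, dotProduct, Matrix.mulVec,
      metricMatrix_apply, mul_sum]
    rw [sum_comm]
    exact sum_congr rfl fun j _ => sum_congr rfl fun k _ => by rw [← hL]; ring

theorem contDiffOn_det {U : Set (Eu n)} {A : Eu n → Matrix (Fin n) (Fin n) ℝ}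
    (hA : ∀ j k, ContDiffOn ℝ ∞ (fun y => A y j k) U) : ContDiffOn ℝ ∞ (fun y => (A y).det) U := by
  simp only [Matrix.det_apply']
  exact ContDiffOn.sum fun σ _ => contDiffOn_const.mul (contDiffOn_prod fun i _ => hA _ _)

theorem contDiffOn_inv_entry {U : Set (Eu n)} {A : Eu n → Matrix (Fin n) (Fin n) ℝ}
    (hA : ∀ j k, ContDiffOn ℝ ∞ (fun y => A y j k) U) (hd : ∀ y ∈ U, (A y).det ≠ 0) (j k : Fin n) :
    ContDiffOn ℝ ∞ (fun y => (A y)⁻¹ j k) U := by
  simp only [Matrix.inv_def, Matrix.smul_apply, smul_eq_mul, Ring.inverse_eq_inv',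
    Matrix.adjugate_apply]
  refine ((contDiffOn_det hA).inv hd).mul (contDiffOn_det fun a b => ?_)
  by_cases h : a = k
  · subst h; simp only [Matrix.updateRow_self]; exact contDiffOn_const
  · simp only [Matrix.updateRow_ne h]; exact hA a b

theorem sqrtdet_smooth (g : RiemMetric (Eu n) M) (p : M) :
    ContDiffOn ℝ ∞ (fun y => √(metricMatrix g (chartAt (Eu n) p) y).det)
      (chartAt (Eu n) p).target :=
  (contDiffOn_det (metricMatrix_smooth g p)).sqrt fun _ hy =>
    (metricMatrix_posDef g p hy).det_pos.ne'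

theorem metricInv_smooth (g : RiemMetric (Eu n) M) (p : M) (j k : Fin n) :
    ContDiffOn ℝ ∞ (fun y => (metricMatrix g (chartAt (Eu n) p) y)⁻¹ j k)
      (chartAt (Eu n) p).target :=
  contDiffOn_inv_entry (metricMatrix_smooth g p)
    (fun _ hy => (metricMatrix_posDef g p hy).det_pos.ne') j k

theorem comp_symm_smooth {u : M → ℝ} (hu : ContMDiff (𝓡 n) 𝓘(ℝ, ℝ) ∞ u) (p : M) :
    ContDiffOn ℝ ∞ (u ∘ (chartAt (Eu n) p).symm) (chartAt (Eu n) p).target := by
  rw [← contMDiffOn_iff_contDiffOn]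
  exact hu.comp_contMDiffOn contMDiffOn_chart_symm

theorem coordDeriv_smooth {U : Set (Eu n)} (hU : IsOpen U) {f : Eu n → ℝ}
    (hf : ContDiffOn ℝ ∞ f U) (k : Fin n) : ContDiffOn ℝ ∞ (coordDeriv k f) U :=
  (hf.fderiv_of_isOpen (m := ∞) hU (by simp)).clm_apply contDiffOn_const

theorem mvfderiv_coordVec {u : M → ℝ} (hu : ContMDiff (𝓡 n) 𝓘(ℝ, ℝ) ∞ u) (p : M) {y : Eu n}
    (hy : y ∈ (chartAt (Eu n) p).target) (k : Fin n) :
    mvfderiv (𝓡 n) u ((chartAt (Eu n) p).symm y)
      (mfderiv (𝓡 n) (𝓡 n) (chartAt (Eu n) p).symm y (ev k)) =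
      coordDeriv k (u ∘ (chartAt (Eu n) p).symm) y := by
  have h1 := (mdifferentiable_chart (I := 𝓡 n) p).mdifferentiableAt_symm hy
  have h2 := mfderiv_comp y (hu.mdifferentiableAt (by simp)) h1
  rw [mfderiv_eq_fderiv] at h2
  unfold coordDeriv
  rw [h2]
  rfl

end Pool.Agent.P.MP_f97e06_gt
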