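import Mathlib

/-! Definitions: Laplace-Beltrami operator in local coordinates, eigenspaces, degenerate
eigenvalues. -/

namespace Pool.Agent.P.MP_f97e06_gt

open scoped Manifold ContDiff

/-- The value `B(v, w)` of a continuous bilinear form. -/
noncomputable def bilinApply {V : Type*} [AddCommGroup V] [Module ℝ V] [TopologicalSpace V]
    (B : V →L[ℝ] V →L[ℝ] ℝ) (v w : V) : ℝ :=
  B v w

/-- Smooth Riemannian metrics on a smooth manifold `M` (without boundary) modelled on `E`. -/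
abbrev RiemMetric (E : Type*) [NormedAddCommGroup E] [NormedSpace ℝ E] (M : Type*)
    [TopologicalSpace M] [ChartedSpace E M] [IsManifold 𝓘(ℝ, E) ∞ M] :=
  Bundle.ContMDiffRiemannianMetric 𝓘(ℝ, E) ∞ E (fun x : M => TangentSpace 𝓘(ℝ, E) x)

section
variable {E : Type*} [NormedAddCommGroup E] [NormedSpace ℝ E] {M : Type*} [TopologicalSpace M]
  [ChartedSpace E M]

/-- `g_x(v, w)`. -/
noncomputable def metricApply [IsManifold 𝓘(ℝ, E) ∞ M] (g : RiemMetric E M) (x : M)
    (v w : TangentSpace 𝓘(ℝ, E) x) : ℝ :=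
  bilinApply (g.inner x) v w

/-- The image `df_y(v)` of the vector `v` under the differential of `f : E → M` at `y`. -/
noncomputable def pushVec (f : E → M) (y v : E) : TangentSpace 𝓘(ℝ, E) (f y) :=
  mfderiv 𝓘(ℝ, E) 𝓘(ℝ, E) f y v

variable (E) in
/-- The value `du_x(v)` of the differential of a real function on a tangent vector. -/
noncomputable def differentialAt (u : M → ℝ) (x : M) (v : TangentSpace 𝓘(ℝ, E) x) : ℝ :=
  mvfderiv 𝓘(ℝ, E) u x v

end

/-- The partial derivative `∂_j f (y)` of a function on `ℝ^n`. -/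
noncomputable def coordDeriv {n : ℕ} (j : Fin n) (f : EuclideanSpace ℝ (Fin n) → ℝ)
    (y : EuclideanSpace ℝ (Fin n)) : ℝ :=
  fderiv ℝ f y (EuclideanSpace.single j 1)

variable {n : ℕ} {M : Type*} [TopologicalSpace M] [ChartedSpace (EuclideanSpace ℝ (Fin n)) M]
  [IsManifold (𝓡 n) ∞ M]

/-- The matrix `g_{jk}(y) = g(∂_j, ∂_k)` of the metric in the coordinates `y` of the chart `e`;
the coordinate vector field `∂_j` is the image of the `j`-th unit vector under `d(e⁻¹)`. -/
noncomputable def metricMatrix (g : RiemMetric (EuclideanSpace ℝ (Fin n)) M)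
    (e : OpenPartialHomeomorph M (EuclideanSpace ℝ (Fin n))) (y : EuclideanSpace ℝ (Fin n)) :
    Matrix (Fin n) (Fin n) ℝ :=
  Matrix.of fun j k => metricApply g (e.symm y)
    (pushVec e.symm y (EuclideanSpace.single j 1)) (pushVec e.symm y (EuclideanSpace.single k 1))

/-- `|g|^{-1/2} ∂_j (|g|^{1/2} g^{jk} ∂_k u)` in the coordinates `y` of the chart `e`. -/
noncomputable def laplacianInChart (g : RiemMetric (EuclideanSpace ℝ (Fin n)) M)
    (e : OpenPartialHomeomorph M (EuclideanSpace ℝ (Fin n))) (u : M → ℝ)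
    (y : EuclideanSpace ℝ (Fin n)) : ℝ :=
  (√(metricMatrix g e y).det)⁻¹ * ∑ j, coordDeriv j (fun z =>
    √(metricMatrix g e z).det * ∑ k, (metricMatrix g e z)⁻¹ j k * coordDeriv k (u ∘ e.symm) z) y

/-- The Laplace-Beltrami operator: at `x` it is computed in the preferred chart at `x`. -/
noncomputable def laplaceBeltrami (g : RiemMetric (EuclideanSpace ℝ (Fin n)) M) (u : M → ℝ)
    (x : M) : ℝ :=
  laplacianInChart g (chartAt (EuclideanSpace ℝ (Fin n)) x) u
    (chartAt (EuclideanSpace ℝ (Fin n)) x x)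

/-- `u` is smooth and `Δ_g u = lam u`. -/
def IsEigenfunction (g : RiemMetric (EuclideanSpace ℝ (Fin n)) M) (lam : ℝ) (u : M → ℝ) : Prop :=
  ContMDiff (𝓡 n) 𝓘(ℝ, ℝ) ∞ u ∧ ∀ x, laplaceBeltrami g u x = lam * u x

/-- The multiplicity of `lam`: the dimension of the space spanned by the smooth solutions of
`Δ_g u = lam u`. -/
noncomputable def eigenMultiplicity (g : RiemMetric (EuclideanSpace ℝ (Fin n)) M) (lam : ℝ) :
    Cardinal :=
  Module.rank ℝ (Submodule.span ℝ {u : M → ℝ | IsEigenfunction g lam u})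

variable (n) in
/-- The tensor identity `∑ ε_j du_j ⊗ du_j = 0` everywhere on `M`. -/
def TensorIdentity {k : ℕ} (ε : Fin k → ℝ) (u : Fin k → M → ℝ) : Prop :=
  ∀ (x : M) (v w : TangentSpace (𝓡 n) x), ∑ j, ε j *
    (differentialAt (EuclideanSpace ℝ (Fin n)) (u j) x v *
      differentialAt (EuclideanSpace ℝ (Fin n)) (u j) x w) = 0

/-- `lam` is a nonzero eigenvalue of multiplicity at least two that is degenerate. -/
def IsDegenerateEigenvalue (g : RiemMetric (EuclideanSpace ℝ (Fin n)) M) (lam : ℝ) : Prop :=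
  lam ≠ 0 ∧ 2 ≤ eigenMultiplicity g lam ∧
    ∃ (k : ℕ) (u : Fin k → M → ℝ) (ε : Fin k → ℝ), 1 ≤ k ∧ LinearIndependent ℝ u ∧
      (∀ j, IsEigenfunction g lam (u j)) ∧ (∀ j, ε j = 1 ∨ ε j = -1) ∧
      (∀ x, ∑ j, ε j * u j x ^ 2 = 0) ∧ TensorIdentity n ε u

end Pool.Agent.P.MP_f97e06_gt
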