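import Pool.Agent.P.MP_f97e06_gt.Smooth

/-! Jacobi's formula, the Piola identity and the change of variables for the divergence. -/

namespace Pool.Agent.P.MP_f97e06_gt

open scoped ContDiff Topology
open Filter Finset

section
variable {R : Type*} [CommRing R] [Algebra ℝ R] {ι : Type*} [Fintype ι] [DecidableEq ι]

omit [Fintype ι] in
theorem der_prod (d : Derivation ℝ R R) (s : Finset ι) (f : ι → R) :
    d (∏ i ∈ s, f i) = ∑ i ∈ s, d (f i) * ∏ j ∈ s.erase i, f j := by
  induction s using Finset.induction_on with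
  | empty => simp
  | insert a s ha ih =>
    rw [prod_insert ha, der_mul, ih, sum_insert ha, erase_insert ha, mul_sum]
    congr 1
    refine sum_congr rfl fun i hi => ?_
    have hne : a ≠ i := fun h => ha (h ▸ hi)
    rw [erase_insert_of_ne hne, prod_insert (fun h => ha (mem_of_mem_erase h))]
    ring

theorem jacobi (d : Derivation ℝ R R) (A : Matrix ι ι R) :
    d A.det = ∑ c, ∑ b, A.adjugate c b * d (A b c) := by
  have h1 : ∀ c, ∑ b, A.adjugate c b * d (A b c) = (A.updateCol c fun b => d (A b c)).det := by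
    intro c
    rw [← Matrix.cramer_apply, Matrix.cramer_eq_adjugate_mulVec]
    rfl
  simp only [h1, Matrix.det_apply', map_sum]
  rw [sum_comm]
  refine sum_congr rfl fun σ _ => ?_
  rw [der_mul, d.map_intCast, zero_mul, zero_add, der_prod, mul_sum]
  refine sum_congr rfl fun c _ => ?_
  congr 1
  rw [← mul_prod_erase univ _ (mem_univ c), Matrix.updateCol_self]
  congr 1
  exact prod_congr rfl fun j hj => by rw [Matrix.updateCol_ne (ne_of_mem_erase hj)]

theorem piola (D : ι → Derivation ℝ R R) (hD : ∀ i j f, D i (D j f) = D j (D i f)) (ψ : ι → R)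
    (a : ι) : (Matrix.of fun b j => D j (ψ b)).det *
      ∑ j, D j ((Matrix.of fun b j => D j (ψ b)).adjugate j a) = 0 := by
  set J : Matrix ι ι R := Matrix.of fun b j => D j (ψ b) with hJ
  set A := J.adjugate with hA
  have hAJ : ∀ j c, ∑ b, A j b * J b c = if j = c then J.det else 0 := by
    intro j c
    have := congrFun (congrFun (Matrix.adjugate_mul J) j) c
    simpa [Matrix.mul_apply, Matrix.one_apply] using this
  have hJA : ∀ b a, ∑ c, J b c * A c a = if b = a then J.det else 0 := by
    intro b a
    have := congrFun (congrFun (Matrix.mul_adjugate J) b) a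
    simpa [Matrix.mul_apply, Matrix.one_apply] using this
  have h1 : ∀ j, J.det * D j (A j a) =
      D j J.det * A j a - ∑ c, ∑ b, A j b * D j (J b c) * A c a := by
    intro j
    have h2 : ∀ c, (∑ b, D j (A j b) * J b c) + ∑ b, A j b * D j (J b c) =
        if j = c then D j J.det else 0 := by
      intro c
      have := congrArg (D j) (hAJ j c)
      rw [map_sum] at this
      simp only [der_mul, sum_add_distrib] at this
      rw [this]
      split_ifs <;> simp
    have h3 : ∑ c, ((∑ b, D j (A j b) * J b c) + ∑ b, A j b * D j (J b c)) * A c a =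
        D j J.det * A j a := by
      simp [h2]
    have h4 : ∑ c, (∑ b, D j (A j b) * J b c) * A c a = J.det * D j (A j a) := by
      simp only [sum_mul]
      rw [sum_comm]
      simp only [mul_assoc, ← mul_sum, hJA]
      simp [mul_comm]
    simp only [add_mul, sum_add_distrib, h4] at h3
    simp only [sum_mul] at h3
    linear_combination h3
  rw [mul_sum]
  simp only [h1, sum_sub_distrib, jacobi, ← hA, sum_mul]
  rw [sub_eq_zero, sum_comm]
  refine sum_congr rfl fun j _ => sum_congr rfl fun c _ => sum_congr rfl fun b _ => ?_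
  simp only [hJ, Matrix.of_apply]
  rw [hD c j]

end

variable {n : ℕ}

/-- the point with smooth coordinates -/
noncomputable def pt (ψ : Fin n → Sm n) (y : Eu n) : Eu n := WithLp.toLp 2 fun a => evl y (ψ a)

theorem pt_smooth (ψ : Fin n → Sm n) : ContDiff ℝ ∞ (pt ψ) :=
  contDiff_euclidean.2 fun a => (ψ a).smooth

/-- composition -/
noncomputable def compS (F : Sm n) (ψ : Fin n → Sm n) : Sm n :=
  Sm.mk (F.fn ∘ pt ψ) (F.smooth.comp (pt_smooth ψ))

theorem evl_compS (F : Sm n) (ψ : Fin n → Sm n) (y : Eu n) :
    evl y (compS F ψ) = evl (pt ψ y) F := rfl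

theorem fderiv_component {f : Eu n → Eu n} {y : Eu n} (hf : DifferentiableAt ℝ f y) (v : Eu n)
    (a : Fin n) : fderiv ℝ (fun z => f z a) y v = fderiv ℝ f y v a := by
  have := ((EuclideanSpace.proj (𝕜 := ℝ) a : Eu n →L[ℝ] ℝ).hasFDerivAt.comp y hf.hasFDerivAt).fderiv
  have h2 : (fun z => f z a) = (EuclideanSpace.proj (𝕜 := ℝ) a : Eu n →L[ℝ] ℝ) ∘ f := rfl
  rw [h2, this]; rfl

theorem D_compS (F : Sm n) (ψ : Fin n → Sm n) (j : Fin n) :
    D j (compS F ψ) = ∑ b, compS (D b F) ψ * D j (ψ b) := by
  refine Sm.ext fun y => ?_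
  rw [← evl_apply, ← evl_apply, D_apply]
  have hp : DifferentiableAt ℝ (pt ψ) y := (pt_smooth ψ).differentiable (by simp) y
  have := fderiv_comp y (F.diff (pt ψ y)) hp
  change fderiv ℝ (F.fn ∘ pt ψ) y (ev j) = _
  rw [this, ContinuousLinearMap.comp_apply, fderiv_eq_sum]
  simp only [map_sum, map_mul, evl_compS]
  refine sum_congr rfl fun b _ => ?_
  rw [mul_comm, ← fderiv_component hp]
  rfl

theorem dvg_change (F ψ : Fin n → Sm n) (y : Eu n)
    (hd : evl y (Matrix.of fun b j => D j (ψ b)).det ≠ 0) :
    evl y (∑ j, D j (∑ a, (Matrix.of fun b j => D j (ψ b)).adjugate j a * compS (F a) ψ)) =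
      evl y (Matrix.of fun b j => D j (ψ b)).det * ∑ a, evl (pt ψ y) (D a (F a)) := by
  have hp : ∀ a, evl y (∑ j, D j ((Matrix.of fun b j => D j (ψ b)).adjugate j a)) = 0 := by
    intro a
    have := congrArg (evl y) (piola D D_comm ψ a)
    rw [map_mul, map_zero] at this
    exact (mul_eq_zero.1 this).resolve_left hd
  set J : Matrix (Fin n) (Fin n) (Sm n) := Matrix.of fun b j => D j (ψ b) with hJ
  have hJA : ∀ b a, ∑ c, J b c * J.adjugate c a = if b = a then J.det else 0 := by
    intro b a
    have := congrFun (congrFun (Matrix.mul_adjugate J) b) a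
    simpa [Matrix.mul_apply, Matrix.one_apply] using this
  have e : ∑ j, D j (∑ a, J.adjugate j a * compS (F a) ψ) =
      ∑ a, (∑ j, D j (J.adjugate j a)) * compS (F a) ψ + J.det * ∑ a, compS (D a (F a)) ψ := by
    simp only [map_sum, der_mul, sum_add_distrib, sum_mul, D_compS, mul_sum]
    congr 1
    · rw [sum_comm]
    · rw [sum_comm]
      refine sum_congr rfl fun a _ => ?_
      rw [sum_comm]
      have : ∀ b, ∑ j, J.adjugate j a * (compS (D b (F a)) ψ * D j (ψ b)) =
          compS (D b (F a)) ψ * ∑ j, J b j * J.adjugate j a := by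
        intro b
        rw [mul_sum]
        exact sum_congr rfl fun j _ => by simp only [hJ, Matrix.of_apply]; ring
      simp only [this, hJA]
      simp [mul_comm]
  rw [e, map_add, map_sum]
  simp only [map_mul, hp, zero_mul, sum_const_zero, zero_add]
  rw [map_sum]
  simp only [evl_compS]

end Pool.Agent.P.MP_f97e06_gt
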