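import Pool.Agent.P.MP_f97e06_gt.Chart
import Pool.Agent.P.MP_f97e06_gt.Piola

/-! The local-coordinate formula for the Laplace-Beltrami operator does not depend on the chart. -/

namespace Pool.Agent.P.MP_f97e06_gt

open scoped Manifold ContDiff Topology
open Filter Finset Matrix

variable {n : ℕ}

/-- Jacobian matrix -/
noncomputable def jac (ψ : Eu n → Eu n) (y : Eu n) : Matrix (Fin n) (Fin n) ℝ :=
  Matrix.of fun a j => fderiv ℝ ψ y (ev j) a

theorem eq_sum_ev (v : Eu n) : v = ∑ a, v a • ev a := by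
  ext i; simp [Pi.single_apply]

/-- The change of variables for the divergence, for functions smooth near a point. -/
theorem div_change {ψ : Eu n → Eu n} {V V' : Set (Eu n)} (hV : IsOpen V) (hV' : IsOpen V')
    {y0 : Eu n} (hy0 : y0 ∈ V) (hy0' : ψ y0 ∈ V') (hψ : ContDiffOn ℝ ∞ ψ V)
    {F : Fin n → Eu n → ℝ} (hF : ∀ a, ContDiffOn ℝ ∞ (F a) V') (hd : (jac ψ y0).det ≠ 0)
    (s : ℝ) {W : Fin n → Eu n → ℝ}
    (hW : ∀ j, W j =ᶠ[𝓝 y0] fun y => s * ∑ a, (jac ψ y).adjugate j a * F a (ψ y)) :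
    ∑ j, coordDeriv j (W j) y0 = s * ((jac ψ y0).det * ∑ a, coordDeriv a (F a) (ψ y0)) := by
  have hψa : ∀ a, ContDiffOn ℝ ∞ (fun y => ψ y a) V := fun a => contDiffOn_euclidean.1 hψ a
  choose ψS hψS using fun a => exists_Sm_eventuallyEq hV hy0 (hψa a)
  choose FS hFS using fun a => exists_Sm_eventuallyEq hV' hy0' (hF a)
  have hpt : pt ψS =ᶠ[𝓝 y0] ψ := by
    filter_upwards [eventually_all.2 hψS] with y hy
    ext a; exact hy a
  have hcont : ContinuousAt ψ y0 := hψ.continuousOn.continuousAt (hV.mem_nhds hy0)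
  set J : Matrix (Fin n) (Fin n) (Sm n) := Matrix.of fun b j => D j (ψS b) with hJ
  have hJy : ∀ᶠ y in 𝓝 y0, (evl y).mapMatrix J = jac ψ y := by
    filter_upwards [eventually_all.2 fun a => (hψS a).fderiv (𝕜 := ℝ), hV.mem_nhds hy0]
      with y hy hyV
    ext b j
    have hdiff : DifferentiableAt ℝ ψ y :=
      (hψ.contDiffAt (hV.mem_nhds hyV)).differentiableAt (by simp)
    simp only [RingHom.mapMatrix_apply, Matrix.map_apply, hJ, Matrix.of_apply, jac, D_apply, hy b,
      fderiv_component hdiff]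
  have hdet : evl y0 J.det = (jac ψ y0).det := by
    rw [RingHom.map_det, hJy.self_of_nhds]
  have hWS : ∀ j, W j =ᶠ[𝓝 y0] (cst s * ∑ a, J.adjugate j a * compS (FS a) ψS).fn := by
    intro j
    filter_upwards [hW j, hJy, hpt, hcont.eventually (eventually_all.2 hFS)] with y h1 h2 h3 h4
    rw [h1, ← evl_apply]
    simp only [map_mul, map_sum, evl_cst, evl_compS, h3, ← h2, ← RingHom.map_adjugate]
    simp only [evl_apply, h4, RingHom.mapMatrix_apply, Matrix.map_apply]
  have h1 : ∀ j, coordDeriv j (W j) y0 =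
      s * evl y0 (D j (∑ a, J.adjugate j a * compS (FS a) ψS)) := by
    intro j
    unfold coordDeriv
    rw [(hWS j).fderiv_eq, ← D_apply, der_mul, D_cst]
    simp
  have h2 : ∀ a, evl (pt ψS y0) (D a (FS a)) = coordDeriv a (F a) (ψ y0) := by
    intro a
    rw [hpt.self_of_nhds, D_apply, (hFS a).fderiv_eq]
    rfl
  simp only [h1, ← mul_sum]
  rw [← map_sum, dvg_change FS ψS y0 (hdet ▸ hd), hdet]
  simp only [h2]

variable {M : Type*} [TopologicalSpace M] [ChartedSpace (Eu n) M] [IsManifold (𝓡 n) ∞ M]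

theorem laplacianInChart_invariant (g : RiemMetric (Eu n) M) {u : M → ℝ}
    (hu : ContMDiff (𝓡 n) 𝓘(ℝ, ℝ) ∞ u) (p q : M) {x : M} (hp : x ∈ (chartAt (Eu n) p).source)
    (hq : x ∈ (chartAt (Eu n) q).source) :
    laplacianInChart g (chartAt (Eu n) p) u (chartAt (Eu n) p x) =
      laplacianInChart g (chartAt (Eu n) q) u (chartAt (Eu n) q x) := by
  set e := chartAt (Eu n) p with he
  set e' := chartAt (Eu n) q with he'
  set ψ : Eu n → Eu n := e' ∘ e.symm with hψ
  set V := e.target ∩ e.symm ⁻¹' e'.source with hV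
  have hVo : IsOpen V := e.isOpen_inter_preimage_symm e'.open_source
  have hy0 : e x ∈ V := ⟨e.map_source hp, by simp [e.left_inv hp, hq]⟩
  have hψ0 : ψ (e x) = e' x := by simp [hψ, e.left_inv hp]
  have hmaps : ∀ y ∈ V, ψ y ∈ e'.target := fun y hy => e'.map_source hy.2
  have hψs : ContDiffOn ℝ ∞ ψ V := by
    rw [← contMDiffOn_iff_contDiffOn]
    exact (contMDiffOn_chart (I := 𝓡 n) (x := q)).comp
      ((contMDiffOn_chart_symm (I := 𝓡 n) (x := p)).mono Set.inter_subset_left) fun y hy => hy.2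
  have hsymm : ∀ y ∈ V, e'.symm (ψ y) = e.symm y := fun y hy => e'.left_inv hy.2
  have hev : ∀ y ∈ V, (e.symm : Eu n → M) =ᶠ[𝓝 y] e'.symm ∘ ψ := fun y hy => by
    filter_upwards [hVo.mem_nhds hy] with z hz
    exact (hsymm z hz).symm
  have hdiff : ∀ y ∈ V, DifferentiableAt ℝ ψ y := fun y hy =>
    (hψs.contDiffAt (hVo.mem_nhds hy)).differentiableAt (by simp)
  have hmf : ∀ y ∈ V, ∀ j, (mfderiv (𝓡 n) (𝓡 n) e.symm y (ev j) : Eu n) =
      ∑ a, jac ψ y a j • (mfderiv (𝓡 n) (𝓡 n) e'.symm (ψ y) (ev a) : Eu n) := by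
    intro y hy j
    have h1 := (mdifferentiable_chart (I := 𝓡 n) q).mdifferentiableAt_symm (hmaps y hy)
    have h2 := mfderiv_comp y h1 (hdiff y hy).mdifferentiableAt
    rw [mfderiv_eq_fderiv] at h2
    rw [(hev y hy).mfderiv_eq, h2]
    change mfderiv (𝓡 n) (𝓡 n) e'.symm (ψ y) (fderiv ℝ ψ y (ev j)) = _
    conv_lhs => rw [eq_sum_ev (fderiv ℝ ψ y (ev j))]
    erw [map_sum]
    exact sum_congr rfl fun a _ => map_smul _ _ _
  have hG : ∀ y ∈ V, metricMatrix g e y = (jac ψ y)ᵀ * metricMatrix g e' (ψ y) * jac ψ y := by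
    intro y hy
    ext j k
    let B : M → Eu n →L[ℝ] Eu n →L[ℝ] ℝ := fun x => g.inner x
    have h1 : metricMatrix g e y j k = B (e.symm y) (mfderiv (𝓡 n) (𝓡 n) e.symm y (ev j))
      (mfderiv (𝓡 n) (𝓡 n) e.symm y (ev k)) := rfl
    have h2 : ∀ a b, metricMatrix g e' (ψ y) a b =
      B (e.symm y) (mfderiv (𝓡 n) (𝓡 n) e'.symm (ψ y) (ev a))
        (mfderiv (𝓡 n) (𝓡 n) e'.symm (ψ y) (ev b)) := fun a b => by rw [← hsymm y hy]; rfl
    rw [h1, hmf y hy j, hmf y hy k]
    simp only [Matrix.mul_apply, Matrix.transpose_apply, h2, sum_mul]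
    erw [map_sum, map_sum]
    refine sum_congr rfl fun b _ => ?_
    rw [FunLike.coe_sum, Finset.sum_apply]
    refine sum_congr rfl fun a _ => ?_
    erw [map_smul, map_smul]
    simp only [_root_.smul_apply, smul_eq_mul]
    ring
  have hgrad : ∀ y ∈ V, (fun k => coordDeriv k (u ∘ e.symm) y) =
      (jac ψ y)ᵀ *ᵥ fun a => coordDeriv a (u ∘ e'.symm) (ψ y) := by
    intro y hy
    funext k
    have h1 : (u ∘ e.symm) =ᶠ[𝓝 y] (u ∘ e'.symm) ∘ ψ := (hev y hy).fun_comp u
    have h2 : DifferentiableAt ℝ (u ∘ e'.symm) (ψ y) :=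
      ((comp_symm_smooth hu q).contDiffAt (e'.open_target.mem_nhds (hmaps y hy))).differentiableAt
        (by simp)
    unfold coordDeriv
    rw [h1.fderiv_eq, fderiv_comp y h2 (hdiff y hy), ContinuousLinearMap.comp_apply]
    conv_lhs => rw [eq_sum_ev (fderiv ℝ ψ y (ev k))]
    simp [Matrix.mulVec, dotProduct, jac]
  have hdet : ∀ y ∈ V, (metricMatrix g e y).det =
      (jac ψ y).det ^ 2 * (metricMatrix g e' (ψ y)).det := by
    intro y hy
    rw [hG y hy, det_mul, det_mul, det_transpose]; ring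
  have hd0 : ∀ y ∈ V, (jac ψ y).det ≠ 0 := by
    intro y hy h
    have := (metricMatrix_posDef g p hy.1).det_pos
    rw [hdet y hy, h] at this
    simp at this
  have hsq : ∀ y ∈ V, √(metricMatrix g e y).det =
      |(jac ψ y).det| * √(metricMatrix g e' (ψ y)).det := by
    intro y hy
    rw [hdet y hy, Real.sqrt_mul (sq_nonneg _), Real.sqrt_sq_eq_abs]
  let F : Fin n → Eu n → ℝ := fun a z => √(metricMatrix g e' z).det *
    ∑ b, (metricMatrix g e' z)⁻¹ a b * coordDeriv b (u ∘ e'.symm) z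
  have hF : ∀ a, ContDiffOn ℝ ∞ (F a) e'.target := fun a =>
    (sqrtdet_smooth g q).mul (ContDiffOn.sum fun b _ => (metricInv_smooth g q a b).mul
      (coordDeriv_smooth e'.open_target (comp_symm_smooth hu q) b))
  set d0 := (jac ψ (e x)).det with hd0def
  set s := |d0| / d0 with hs
  have hsign : ∀ᶠ y in 𝓝 (e x), |(jac ψ y).det| = s * (jac ψ y).det := by
    have hc : ContinuousAt (fun y => (jac ψ y).det) (e x) := by
      refine ContinuousOn.continuousAt (s := V) (contDiffOn_det fun a j => ?_).continuousOn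
        (hVo.mem_nhds hy0)
      exact contDiffOn_euclidean.1
        ((hψs.fderiv_of_isOpen (m := ∞) hVo (by simp)).clm_apply contDiffOn_const) a
    rcases lt_or_gt_of_ne (hd0 _ hy0) with h | h
    · filter_upwards [hc.eventually_lt continuousAt_const h] with y hy
      rw [hs, abs_of_neg hy, abs_of_neg h, neg_div, div_self h.ne]; ring
    · filter_upwards [continuousAt_const.eventually_lt hc h] with y hy
      rw [hs, abs_of_pos hy, abs_of_pos h, div_self h.ne']; ring
  have key := div_change hVo e'.open_target hy0 (hmaps _ hy0) hψs hF (hd0 _ hy0) s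
    (W := fun j z => √(metricMatrix g e z).det *
      ∑ k, (metricMatrix g e z)⁻¹ j k * coordDeriv k (u ∘ e.symm) z) (by
      intro j
      filter_upwards [hsign, hVo.mem_nhds hy0] with y hy1 hy
      have hu1 : IsUnit (jac ψ y)ᵀ.det := by rw [det_transpose]; exact (hd0 y hy).isUnit
      have h1 : (metricMatrix g e y)⁻¹ *ᵥ (fun k => coordDeriv k (u ∘ e.symm) y) =
          (jac ψ y)⁻¹ *ᵥ ((metricMatrix g e' (ψ y))⁻¹ *ᵥ
            fun a => coordDeriv a (u ∘ e'.symm) (ψ y)) := by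
        rw [hgrad y hy, hG y hy, Matrix.mul_inv_rev, Matrix.mul_inv_rev, mulVec_mulVec,
          mulVec_mulVec, Matrix.mul_assoc, Matrix.mul_assoc, nonsing_inv_mul _ hu1, Matrix.mul_one]
      have h2 := congrFun h1 j
      simp only [Matrix.mulVec, dotProduct] at h2
      rw [h2, hsq y hy, hy1, Matrix.inv_def (jac ψ y)]
      simp only [F, Matrix.smul_apply, smul_eq_mul, Ring.inverse_eq_inv', mul_sum]
      refine sum_congr rfl fun a _ => sum_congr rfl fun b _ => ?_
      have := hd0 y hy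
      field_simp)
  unfold laplacianInChart
  rw [key, hsq _ hy0, hsign.self_of_nhds, hψ0]
  have h1 : s ≠ 0 := div_ne_zero (abs_ne_zero.2 (hd0 _ hy0)) (hd0 _ hy0)
  have h2 := hd0 _ hy0
  simp only [F]
  field_simp

end Pool.Agent.P.MP_f97e06_gt
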