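import Pool.Agent.P.MP_f97e06_gt.QuadForm

/-! The pointwise linear algebra of the rigidity argument. -/

namespace Pool.Agent.P.MP_f97e06_gt

open Finset Module

section
variable {κ : Type*} [Fintype κ] [DecidableEq κ]

theorem exists_factor (A : κ → κ → ℝ) (hs : ∀ i j, A i j = A j i)
    (hp : ∀ ξ : κ → ℝ, ξ ≠ 0 → 0 < qf A ξ) :
    ∃ C : κ → κ → ℝ, ∀ i j, A i j = ∑ α, C α i * C α j := by
  open scoped MatrixOrder in
  have hA : (Matrix.of A).PosDef := by
    refine Matrix.PosDef.of_dotProduct_mulVec_pos ?_ fun x hx => ?_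
    · ext i j; simp [hs i j]
    · have := hp x hx
      simp only [qf] at this
      simp only [star_trivial, dotProduct, Matrix.mulVec, Matrix.of_apply, mul_sum]
      refine lt_of_lt_of_eq this (sum_congr rfl fun i _ => sum_congr rfl fun j _ => by ring)
  open scoped MatrixOrder in
  obtain ⟨B, hB⟩ := CStarAlgebra.nonneg_iff_eq_star_mul_self.mp hA.posSemidef.nonneg
  refine ⟨B, fun i j => ?_⟩
  have := congrFun (congrFun hB i) j
  simpa [Matrix.mul_apply] using this

/-- the squared norm of a symmetric two-tensor -/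
def sqn (A N : κ → κ → ℝ) : ℝ := ∑ i, ∑ j, ∑ l, ∑ k, A i j * A l k * (N i l * N j k)

theorem sqn_pos (A : κ → κ → ℝ) (hs : ∀ i j, A i j = A j i)
    (hp : ∀ ξ : κ → ℝ, ξ ≠ 0 → 0 < qf A ξ) (N : κ → κ → ℝ) :
    0 ≤ sqn A N ∧ (sqn A N = 0 → N = 0) := by
  obtain ⟨C, hC⟩ := exists_factor A hs hp
  have hq : ∀ ξ, 0 ≤ qf A ξ := by
    intro ξ
    by_cases h : ξ = 0
    · simp [h, qf]
    · exact (hp ξ h).le
  have e : sqn A N = ∑ α, qf A (fun i => ∑ l, C α l * N i l) := by
    unfold sqn qf
    conv_rhs => rw [sum_comm]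
    refine sum_congr rfl fun i _ => ?_
    conv_rhs => rw [sum_comm]
    refine sum_congr rfl fun j _ => ?_
    rw [← mul_sum]
    simp only [sum_mul_sum, mul_assoc, ← mul_sum]
    congr 1
    conv_rhs => rw [sum_comm]
    refine sum_congr rfl fun l _ => ?_
    simp only [mul_sum]
    conv_rhs => rw [sum_comm]
    refine sum_congr rfl fun k _ => ?_
    rw [hC l k, sum_mul]
    exact sum_congr rfl fun α _ => by ring
  refine ⟨e ▸ sum_nonneg fun α _ => hq _, fun h => ?_⟩
  rw [e] at h
  have h1 : ∀ α i, ∑ l, C α l * N i l = 0 := by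
    intro α i
    have := (sum_eq_zero_iff_of_nonneg fun α _ => hq _).1 h α (mem_univ _)
    by_contra hne
    have h2 : (fun i => ∑ l, C α l * N i l) ≠ 0 := fun h3 => hne (congrFun h3 i)
    exact (hp _ h2).ne' this
  funext i
  by_contra hne
  have := hp _ hne
  have e2 : qf A (N i) = ∑ α, (∑ l, C α l * N i l) ^ 2 := by
    simp only [qf, sq, sum_mul_sum]
    conv_rhs => rw [sum_comm]
    refine sum_congr rfl fun l _ => ?_
    conv_rhs => rw [sum_comm]
    refine sum_congr rfl fun k _ => ?_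
    rw [hC l k, sum_mul]
    exact sum_congr rfl fun α _ => by ring
  simp [e2, h1] at this

end

variable {ι : Type*} [Fintype ι] {κ : Type*} [Fintype κ] [DecidableEq κ]

/-- the indefinite form -/
def bf (ε : ι → ℝ) (x y : ι → ℝ) : ℝ := ∑ i, ε i * (x i * y i)

theorem bf_comm (ε x y : ι → ℝ) : bf ε x y = bf ε y x := by
  simp only [bf, mul_comm]

theorem bf_sub_left (ε x x' y : ι → ℝ) : bf ε (x - x') y = bf ε x y - bf ε x' y := by
  simp only [bf, Pi.sub_apply, sub_mul, mul_sub, sum_sub_distrib]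

theorem bf_sub_right (ε x y y' : ι → ℝ) : bf ε x (y - y') = bf ε x y - bf ε x y' := by
  simp only [bf, Pi.sub_apply, mul_sub, sum_sub_distrib]

theorem bf_neg_def (ε : ι → ℝ) (hε : ∀ i, ε i = 1 ∨ ε i = -1) (x y : ι → ℝ)
    (hx : ∀ i, ε i = 1 → x i = 0) : bf ε x y = -∑ i, x i * y i := by
  rw [bf, ← sum_neg_distrib]
  refine sum_congr rfl fun i _ => ?_
  rcases hε i with h | h
  · simp [hx i h]
  · simp [h]

theorem pointwise_rigid (ε : ι → ℝ) (hε : ∀ i, ε i = 1 ∨ ε i = -1)
    (hcard : Nat.card {i // ε i = 1} ≤ 3)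
    (A : κ → κ → ℝ) (hs : ∀ i j, A i j = A j i) (hp : ∀ ξ : κ → ℝ, ξ ≠ 0 → 0 < qf A ξ)
    (E : Submodule ℝ (ι → ℝ)) (Z0 : ι → ℝ) (Z : κ → ι → ℝ) (Z2 : κ → κ → ι → ℝ)
    (hZ0 : Z0 ∈ E) (hZ0ne : Z0 ≠ 0) (hZ : ∀ i, Z i ∈ E) (hsym : ∀ i j, Z2 i j = Z2 j i)
    (hiso : ∀ x ∈ E, ∀ y ∈ E, bf ε x y = 0) (horth : ∀ i j, ∀ x ∈ E, bf ε (Z2 i j) x = 0)
    (hgauss : ∀ i j k l, bf ε (Z2 i j) (Z2 l k) = bf ε (Z2 i l) (Z2 j k))
    (htr : ∑ i, ∑ j, A i j • Z2 i j ∈ E)
    (h2 : ∀ ν : (ι → ℝ) →ₗ[ℝ] ℝ, (∀ x ∈ E, ν x = 0) → ∀ (c0 c1 c2 : ℝ) (i k : κ),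
      c0 • Z0 + c1 • Z i + c2 • Z k = 0 → ∀ j, c1 * ν (Z2 j i) + c2 * ν (Z2 j k) = 0) :
    ∀ i j, Z2 i j ∈ E := by
  classical
  let π : (ι → ℝ) →ₗ[ℝ] ({i // ε i = 1} → ℝ) := LinearMap.funLeft ℝ ℝ Subtype.val
  have hπ : ∀ x, π x = 0 ↔ ∀ i, ε i = 1 → x i = 0 := by
    intro x
    constructor
    · intro h i hi; exact congrFun h ⟨i, hi⟩
    · intro h; funext i; exact h i i.2
  have hinj : ∀ x ∈ E, π x = 0 → x = 0 := by
    intro x hx h
    have h1 := hiso x hx x hx
    rw [bf_neg_def ε hε x x ((hπ x).1 h), neg_eq_zero] at h1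
    funext i
    have := (sum_eq_zero_iff_of_nonneg fun i _ => mul_self_nonneg (x i)).1 h1 i (mem_univ _)
    simpa using this
  have claim1 : ∀ i j, π (Z2 i j) ∈ E.map π := by
    by_cases htop : E.map π = ⊤
    · intro i j; rw [htop]; trivial
    have hlt : finrank ℝ (E.map π) < 3 := by
      have := Submodule.finrank_lt htop
      rw [finrank_fintype_fun_eq_card, ← Nat.card_eq_fintype_card] at this
      omega
    have hfin : finrank ℝ E < 3 := by
      have hi : Function.Injective (π.domRestrict E) := by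
        rw [← LinearMap.ker_eq_bot, LinearMap.ker_eq_bot']
        intro x hx
        exact Subtype.ext (hinj x x.2 hx)
      have := LinearMap.finrank_range_of_inj hi
      rw [LinearMap.range_domRestrict] at this
      omega
    intro i0 j0
    rw [← Subspace.forall_mem_dualAnnihilator_apply_eq_zero_iff]
    intro f hf
    rw [Submodule.mem_dualAnnihilator] at hf
    set ν := f ∘ₗ π with hν
    have hνE : ∀ x ∈ E, ν x = 0 := fun x hx => hf _ (Submodule.mem_map_of_mem hx)
    let N : κ → κ → ℝ := fun i j => ν (Z2 i j)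
    have hminor : ∀ i j k l, N j i * N l k = N j k * N l i := by
      intro i j k l
      have hdep : ¬ LinearIndependent ℝ (![⟨Z0, hZ0⟩, ⟨Z i, hZ i⟩, ⟨Z k, hZ k⟩] : Fin 3 → E) := by
        intro hli
        have := hli.fintype_card_le_finrank
        simp at this
        omega
      obtain ⟨g, hg, m, hm⟩ := Fintype.not_linearIndependent_iff.1 hdep
      have hg' : g 0 • Z0 + g 1 • Z i + g 2 • Z k = 0 := by
        have := congrArg Subtype.val hg
        simpa [Fin.sum_univ_three] using this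
      have r1 := h2 ν hνE _ _ _ i k hg' j
      have r2 := h2 ν hνE _ _ _ i k hg' l
      by_cases h1 : g 1 = 0
      · by_cases h2 : g 2 = 0
        · exfalso
          have h0 : g 0 = 0 := by
            simpa [h1, h2, hZ0ne] using hg'
          apply hm
          fin_cases m
          · exact h0
          · exact h1
          · exact h2
        · apply mul_left_cancel₀ h2
          simp only [N]
          linear_combination ν (Z2 j i) * r2 - ν (Z2 l i) * r1
      · apply mul_left_cancel₀ h1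
        simp only [N]
        linear_combination ν (Z2 l k) * r1 - ν (Z2 j k) * r2
    have htrN : ∑ i, ∑ j, A i j * N i j = 0 := by
      have := hνE _ htr
      simpa [map_sum] using this
    have hsq : sqn A N = 0 := by
      have : sqn A N = (∑ i, ∑ j, A i j * N i j) * (∑ i, ∑ j, A i j * N i j) := by
        rw [sqn, sum_mul]
        refine sum_congr rfl fun i _ => ?_
        rw [sum_mul]
        refine sum_congr rfl fun j _ => ?_
        rw [mul_sum]
        refine sum_congr rfl fun l _ => ?_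
        rw [mul_sum]
        refine sum_congr rfl fun k _ => ?_
        have m1 := hminor i j k l
        have s1 : N i l = N l i := by simp only [N, hsym i l]
        have s2 : N i j = N j i := by simp only [N, hsym i j]
        rw [s1, s2]
        linear_combination (-(A i j * A l k)) * m1
      rw [this, htrN, mul_zero]
    exact congrFun (congrFun ((sqn_pos A hs hp N).2 hsq) i0) j0
  choose e he hπe using claim1
  let Z' : κ → κ → ι → ℝ := fun i j => Z2 i j - e i j
  have hZ'π : ∀ i j a, ε a = 1 → Z' i j a = 0 := by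
    intro i j
    rw [← hπ]
    simp only [Z', map_sub, hπe, sub_self]
  have hb : ∀ i j k l, bf ε (Z2 i j) (Z2 k l) = -∑ a, Z' i j a * Z' k l a := by
    intro i j k l
    rw [← bf_neg_def ε hε _ _ (hZ'π i j)]
    simp only [Z', bf_sub_left, bf_sub_right]
    rw [horth i j _ (he k l), bf_comm ε (e i j), horth k l _ (he i j), hiso _ (he i j) _ (he k l)]
    ring
  have hsum : ∑ a, sqn A (fun i j => Z' i j a) = 0 := by
    have h0 := hiso _ htr _ htr
    have e1 : bf ε (∑ i, ∑ j, A i j • Z2 i j) (∑ i, ∑ j, A i j • Z2 i j) =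
        ∑ i, ∑ j, ∑ l, ∑ k, A i j * A l k * bf ε (Z2 i j) (Z2 l k) := by
      have hl : ∀ (f : κ → ι → ℝ) (y : ι → ℝ), bf ε (∑ i, f i) y = ∑ i, bf ε (f i) y := by
        intro f y
        simp only [bf, Finset.sum_apply, sum_mul, mul_sum]
        rw [sum_comm]
      have hr : ∀ (f : κ → ι → ℝ) (y : ι → ℝ), bf ε y (∑ i, f i) = ∑ i, bf ε y (f i) := by
        intro f y
        rw [bf_comm, hl]
        exact sum_congr rfl fun i _ => bf_comm _ _ _
      have hm : ∀ (c d : ℝ) (x y : ι → ℝ), bf ε (c • x) (d • y) = c * d * bf ε x y := by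
        intro c d x y
        simp only [bf, Pi.smul_apply, smul_eq_mul, mul_sum]
        exact sum_congr rfl fun i _ => by ring
      simp only [hl, hr, hm]
    rw [e1] at h0
    have e2 : ∑ i, ∑ j, ∑ l, ∑ k, A i j * A l k * bf ε (Z2 i j) (Z2 l k) =
        -∑ a, sqn A (fun i j => Z' i j a) := by
      simp only [sqn]
      rw [← sum_neg_distrib]
      conv_rhs => simp only [← sum_neg_distrib]
      conv_rhs => rw [sum_comm]
      refine sum_congr rfl fun i _ => ?_
      conv_rhs => rw [sum_comm]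
      refine sum_congr rfl fun j _ => ?_
      conv_rhs => rw [sum_comm]
      refine sum_congr rfl fun l _ => ?_
      conv_rhs => rw [sum_comm]
      refine sum_congr rfl fun k _ => ?_
      rw [hgauss, hb, sum_neg_distrib, mul_neg, mul_sum]
    rw [e2] at h0
    exact neg_eq_zero.1 h0
  intro i j
  have : Z' i j = 0 := by
    funext a
    have := (sum_eq_zero_iff_of_nonneg fun a _ => (sqn_pos A hs hp _).1).1 hsum a (mem_univ _)
    exact congrFun (congrFun ((sqn_pos A hs hp _).2 this) i) j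
  have h3 : Z2 i j = e i j := sub_eq_zero.1 this
  rw [h3]; exact he i j

end Pool.Agent.P.MP_f97e06_gt
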