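import Pool.Agent.P.MP_f97e06_gt.Smooth
import Pool.Agent.P.MP_f97e06_gt.LinAlg

/-! Local rigidity: on some open set a nontrivial combination of the eigenfunctions vanishes. -/

namespace Pool.Agent.P.MP_f97e06_gt

open scoped ContDiff Topology
open Filter Finset Module

set_option linter.unusedSectionVars false

theorem uniform_frame {X V W : Type*} [TopologicalSpace X] [NormedAddCommGroup V] [NormedSpace ℝ V]
    [FiniteDimensional ℝ V] [NormedAddCommGroup W] [NormedSpace ℝ W]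
    (L : X → V →L[ℝ] W) (x0 : X) (hL : ContinuousAt L x0)
    (hr : ∀ᶠ x in 𝓝 x0, finrank ℝ (LinearMap.range (L x : V →ₗ[ℝ] W)) ≤
      finrank ℝ (LinearMap.range (L x0 : V →ₗ[ℝ] W))) :
    ∃ C : ℝ, 0 ≤ C ∧ ∀ᶠ x in 𝓝 x0, ∀ v : V, ∃ γ : V, L x γ = L x v ∧ ‖γ‖ ≤ C * ‖L x v‖ := by
  obtain ⟨F, hF⟩ := Submodule.exists_isCompl (LinearMap.ker (L x0 : V →ₗ[ℝ] W))
  have hker : LinearMap.ker ((L x0 : V →ₗ[ℝ] W).domRestrict F) = ⊥ := by
    rw [LinearMap.ker_eq_bot']
    intro m hm
    have : (m : V) ∈ LinearMap.ker (L x0 : V →ₗ[ℝ] W) ⊓ F := ⟨hm, m.2⟩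
    rw [hF.inf_eq_bot] at this
    exact Subtype.ext this
  obtain ⟨K, hK0, hK⟩ := LinearMap.exists_antilipschitzWith _ hker
  have hK0' : (0 : ℝ) < K := hK0
  have hb : ∀ c : F, ‖(c : V)‖ ≤ K * ‖L x0 c‖ := fun c => by
    simpa using hK.le_mul_dist c 0
  have hfr : finrank ℝ F = finrank ℝ (LinearMap.range (L x0 : V →ₗ[ℝ] W)) := by
    have h1 := Submodule.finrank_add_eq_of_isCompl hF
    have h2 := LinearMap.finrank_range_add_finrank_ker (L x0 : V →ₗ[ℝ] W)
    omega
  have hnear : ∀ᶠ x in 𝓝 x0, ‖L x - L x0‖ < 1 / (2 * K) := by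
    have : ContinuousAt (fun x => ‖L x - L x0‖) x0 := (hL.sub continuousAt_const).norm
    exact this.eventually_lt continuousAt_const (by simp; positivity)
  refine ⟨2 * K, by positivity, ?_⟩
  filter_upwards [hnear, hr] with x hx hrx v
  have hb' : ∀ c : F, ‖(c : V)‖ ≤ 2 * K * ‖L x c‖ := by
    intro c
    have h1 : ‖L x0 c‖ ≤ ‖L x c‖ + ‖(L x - L x0) c‖ := by
      have : L x0 c = L x c - (L x - L x0) c := by simp
      rw [this]; exact norm_sub_le _ _
    have h2 : ‖(L x - L x0) c‖ ≤ 1 / (2 * K) * ‖(c : V)‖ :=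
      ((L x - L x0).le_opNorm _).trans (mul_le_mul_of_nonneg_right hx.le (norm_nonneg _))
    have h3 := hb c
    have h4 : K * (1 / (2 * K) * ‖(c : V)‖) = ‖(c : V)‖ / 2 := by field_simp
    have h5 := mul_le_mul_of_nonneg_left (h1.trans (add_le_add le_rfl h2)) hK0'.le
    rw [mul_add, h4] at h5
    linarith
  have hinj : Function.Injective ((L x : V →ₗ[ℝ] W).domRestrict F) := by
    rw [← LinearMap.ker_eq_bot, LinearMap.ker_eq_bot']
    intro m hm
    have h1 := hb' m
    have h2 : L x m = 0 := hm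
    rw [h2, norm_zero, mul_zero] at h1
    exact Subtype.ext (norm_le_zero_iff.1 h1)
  have heq : LinearMap.range ((L x : V →ₗ[ℝ] W).domRestrict F) =
      LinearMap.range (L x : V →ₗ[ℝ] W) := by
    refine Submodule.eq_of_le_of_finrank_le ?_ ?_
    · rintro _ ⟨c, rfl⟩; exact ⟨c, rfl⟩
    · rw [LinearMap.finrank_range_of_inj hinj, hfr]; exact hrx
  have : L x v ∈ LinearMap.range ((L x : V →ₗ[ℝ] W).domRestrict F) := by
    rw [heq]; exact ⟨v, rfl⟩
  obtain ⟨γ, hγ⟩ := this
  have hγ' : L x γ = L x v := hγ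
  exact ⟨γ, hγ', hγ' ▸ hb' γ⟩

variable {n : ℕ} {ι : Type*} [Fintype ι] [DecidableEq ι]

/-- value of a vector of smooth functions -/
noncomputable def vl (y : Eu n) (f : ι → Sm n) : ι → ℝ := fun i => evl y (f i)

/-- derivative of a vector of smooth functions -/
noncomputable def Dv (j : Fin n) (f : ι → Sm n) : ι → Sm n := fun i => D j (f i)

/-- a linear functional applied to a vector of smooth functions -/
noncomputable def nuS (ν : (ι → ℝ) →ₗ[ℝ] ℝ) (f : ι → Sm n) : Sm n :=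
  ∑ i, cst (ν (Pi.single i 1)) * f i

theorem evl_nuS (ν : (ι → ℝ) →ₗ[ℝ] ℝ) (f : ι → Sm n) (y : Eu n) :
    evl y (nuS ν f) = ν (vl y f) := by
  rw [LinearMap.pi_apply_eq_sum_univ ν (vl y f)]
  simp only [nuS, map_sum, map_mul, evl_cst, vl, smul_eq_mul]
  refine sum_congr rfl fun i _ => ?_
  rw [mul_comm]
  congr 2
  funext j
  simp [Pi.single_apply, eq_comm]

theorem D_nuS (ν : (ι → ℝ) →ₗ[ℝ] ℝ) (f : ι → Sm n) (j : Fin n) :
    D j (nuS ν f) = nuS ν (Dv j f) := by
  simp only [nuS, map_sum, der_mul, D_cst, zero_mul, zero_add, Dv]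

omit [DecidableEq ι] in
theorem vl_cont (f : ι → Sm n) : Continuous fun y => vl y f :=
  continuous_pi fun i => evl_cont (f i)

omit [DecidableEq ι] in
theorem vl_diff (f : ι → Sm n) : Differentiable ℝ fun y => vl y f :=
  differentiable_pi.2 fun i => (f i).diff

/-- the indefinite form on vectors of smooth functions -/
noncomputable def bS (ε : ι → ℝ) (f g : ι → Sm n) : Sm n := ∑ i, cst (ε i) * (f i * g i)

omit [DecidableEq ι] in
theorem evl_bS (ε : ι → ℝ) (f g : ι → Sm n) (y : Eu n) :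
    evl y (bS ε f g) = bf ε (vl y f) (vl y g) := by
  simp only [bS, bf, map_sum, map_mul, evl_cst, vl]

omit [DecidableEq ι] in
theorem D_bS (ε : ι → ℝ) (f g : ι → Sm n) (j : Fin n) :
    D j (bS ε f g) = bS ε (Dv j f) g + bS ε f (Dv j g) := by
  simp only [bS, map_sum, der_mul, D_cst, zero_mul, zero_add, Dv, mul_add, sum_add_distrib]

omit [DecidableEq ι] [Fintype ι] in
theorem Dv_comm (i j : Fin n) (f : ι → Sm n) : Dv i (Dv j f) = Dv j (Dv i f) := by
  funext a; exact D_comm i j (f a)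

theorem D_zero_on {U : Set (Eu n)} (hU : IsOpen U) {f : Sm n} (h : ∀ y ∈ U, evl y f = 0)
    (j : Fin n) : ∀ y ∈ U, evl y (D j f) = 0 := fun _ hy =>
  germ0_self (D_mem_germ0 (Filter.eventually_of_mem (hU.mem_nhds hy) h) j)

omit [DecidableEq ι] in
theorem bD_zero_on {U : Set (Eu n)} (hU : IsOpen U) (ε : ι → ℝ) {f g : ι → Sm n}
    (h : ∀ y ∈ U, bf ε (vl y f) (vl y g) = 0) (j : Fin n) :
    ∀ y ∈ U, bf ε (vl y (Dv j f)) (vl y g) + bf ε (vl y f) (vl y (Dv j g)) = 0 := by
  intro y hy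
  have := D_zero_on hU (f := bS ε f g) (fun y hy => by rw [evl_bS]; exact h y hy) j y hy
  rwa [D_bS, map_add, evl_bS, evl_bS] at this

/-- the first-order jet frame -/
noncomputable def jet (u : ι → Sm n) : Option (Fin n) → ι → Sm n
  | none => u
  | some j => Dv j u

/-- the linear map spanned by the frame -/
noncomputable def frameMap (u : ι → Sm n) (y : Eu n) : (Option (Fin n) → ℝ) →L[ℝ] (ι → ℝ) :=
  ∑ a, (ContinuousLinearMap.proj a : (Option (Fin n) → ℝ) →L[ℝ] ℝ).smulRight (vl y (jet u a))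

omit [DecidableEq ι] in
theorem frameMap_apply (u : ι → Sm n) (y : Eu n) (c : Option (Fin n) → ℝ) :
    frameMap u y c = ∑ a, c a • vl y (jet u a) := by
  simp [frameMap]

omit [DecidableEq ι] in
theorem frameMap_cont (u : ι → Sm n) : Continuous (frameMap u) := by
  unfold frameMap
  refine continuous_finsetSum _ fun a _ => ?_
  exact ((ContinuousLinearMap.smulRightL ℝ (Option (Fin n) → ℝ) (ι → ℝ))
    (ContinuousLinearMap.proj a)).continuous.comp (vl_cont _)

omit [DecidableEq ι] in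
theorem jet_mem (u : ι → Sm n) (y : Eu n) (a : Option (Fin n)) :
    vl y (jet u a) ∈ LinearMap.range (frameMap u y : (Option (Fin n) → ℝ) →ₗ[ℝ] (ι → ℝ)) := by
  refine ⟨Pi.single a 1, ?_⟩
  change frameMap u y _ = _
  rw [frameMap_apply]
  simp [Pi.single_apply]

theorem second_order (u : ι → Sm n) (y1 : Eu n) (C : ℝ)
    (hC : ∀ᶠ y in 𝓝 y1, ∀ v, ∃ γ, frameMap u y γ = frameMap u y v ∧ ‖γ‖ ≤ C * ‖frameMap u y v‖)
    (ν : (ι → ℝ) →ₗ[ℝ] ℝ) (hν : ∀ v, ν (frameMap u y1 v) = 0) (c : Option (Fin n) → ℝ)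
    (hc : frameMap u y1 c = 0) (j : Fin n) : ∑ a, c a * ν (vl y1 (Dv j (jet u a))) = 0 := by
  set g : Sm n := ∑ a, cst (c a) * nuS ν (jet u a) with hg
  have hgy : ∀ y, evl y g = ν (frameMap u y c) := by
    intro y
    simp only [hg, map_sum, map_mul, evl_cst, evl_nuS, frameMap_apply, map_smul, smul_eq_mul]
  have hDg : evl y1 (D j g) = ∑ a, c a * ν (vl y1 (Dv j (jet u a))) := by
    simp only [hg, map_sum, der_mul, D_cst, zero_mul, zero_add, map_mul, evl_cst, D_nuS, evl_nuS]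
  rw [← hDg, D_apply]
  let ν' : (ι → ℝ) →L[ℝ] ℝ := LinearMap.toContinuousLinearMap ν
  have h1 : Tendsto (fun y => ‖ν'.comp (frameMap u y)‖) (𝓝 y1) (𝓝 0) := by
    have hcont : Continuous (fun y => ‖ν'.comp (frameMap u y)‖) :=
      (continuous_const.clm_comp (frameMap_cont u)).norm
    have h0 : ν'.comp (frameMap u y1) = 0 := by ext1 v; exact hν v
    have := hcont.tendsto y1
    rwa [h0, norm_zero] at this
  have h2 : (fun y => frameMap u y c) =O[𝓝 y1] (fun y => y - y1) := by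
    have hd : DifferentiableAt ℝ (fun y => frameMap u y c) y1 := by
      simp only [frameMap_apply]
      exact DifferentiableAt.fun_sum fun a _ => ((vl_diff (jet u a)) y1).fun_const_smul (c a)
    have := hd.isBigO_sub
    simpa [hc] using this
  have h3 : g.fn =o[𝓝 y1] (fun y => frameMap u y c) := by
    rw [Asymptotics.isLittleO_iff]
    intro δ hδ
    have h4 : ∀ᶠ y in 𝓝 y1, ‖ν'.comp (frameMap u y)‖ * |C| < δ := by
      have := h1.mul_const |C|
      rw [zero_mul] at this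
      exact this.eventually_lt_const hδ
    filter_upwards [hC, h4] with y hy hy4
    obtain ⟨γ, hγ, hγn⟩ := hy c
    have e : g.fn y = (ν'.comp (frameMap u y)) γ := by
      rw [← evl_apply, hgy, ← hγ]; rfl
    rw [e]
    calc ‖(ν'.comp (frameMap u y)) γ‖ ≤ ‖ν'.comp (frameMap u y)‖ * ‖γ‖ :=
          ContinuousLinearMap.le_opNorm _ _
      _ ≤ ‖ν'.comp (frameMap u y)‖ * (|C| * ‖frameMap u y c‖) :=
          mul_le_mul_of_nonneg_left (hγn.trans (mul_le_mul_of_nonneg_right (le_abs_self C)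
            (norm_nonneg _))) (norm_nonneg _)
      _ ≤ δ * ‖frameMap u y c‖ := by
          rw [← mul_assoc]; exact mul_le_mul_of_nonneg_right hy4.le (norm_nonneg _)
  have h5 : HasFDerivAt g.fn (0 : Eu n →L[ℝ] ℝ) y1 := by
    rw [hasFDerivAt_iff_isLittleO]
    have h0 : g.fn y1 = 0 := by rw [← evl_apply, hgy, hc, map_zero]
    simpa [h0] using h3.trans_isBigO h2
  rw [h5.fderiv]; rfl

theorem parallel (u : ι → Sm n) (y1 : Eu n) (C : ℝ)
    (hC : ∀ᶠ y in 𝓝 y1, ∀ v, ∃ γ, frameMap u y γ = frameMap u y v ∧ ‖γ‖ ≤ C * ‖frameMap u y v‖)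
    (hmem : ∀ᶠ y in 𝓝 y1, ∀ j a, ∃ v, frameMap u y v = vl y (Dv j (jet u a)))
    (ν : (ι → ℝ) →ₗ[ℝ] ℝ) (hν : ∀ v, ν (frameMap u y1 v) = 0) : nuS ν u ∈ germ0 y1 := by
  let S : Option (Fin n) → Sm n := fun a => nuS ν (jet u a)
  set K := ∑ j, ∑ a, ‖vl y1 (Dv j (jet u a))‖ + 1 with hK
  have hbd : ∀ᶠ y in 𝓝 y1, ∑ j, ∑ a, ‖vl y (Dv j (jet u a))‖ < K := by
    have : Continuous fun y => ∑ j, ∑ a, ‖vl y (Dv j (jet u a))‖ :=
      continuous_finsetSum _ fun j _ => continuous_finsetSum _ fun a _ => (vl_cont _).norm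
    exact this.continuousAt.eventually_lt continuousAt_const (by linarith)
  obtain ⟨r, hr, hball⟩ := Metric.nhds_basis_ball.eventually_iff.1 (hC.and (hmem.and hbd))
  have key : ∀ y ∈ Metric.ball y1 r, ∀ j a,
      |evl y (D j (S a))| ≤ (Fintype.card (Option (Fin n)) * |C| * K) * ‖vl y S‖ := by
    intro y hy j a
    obtain ⟨h1, h2, h3⟩ := hball hy
    obtain ⟨v, hv⟩ := h2 j a
    obtain ⟨γ, hγ, hγn⟩ := h1 v
    have h4 : ‖vl y (Dv j (jet u a))‖ ≤ K := by
      refine le_trans ?_ h3.le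
      refine le_trans ?_ (single_le_sum (f := fun j => ∑ a, ‖vl y (Dv j (jet u a))‖)
        (fun j _ => sum_nonneg fun a _ => norm_nonneg _) (mem_univ j))
      exact single_le_sum (f := fun a => ‖vl y (Dv j (jet u a))‖)
        (fun a _ => norm_nonneg _) (mem_univ a)
    have h5 : ‖γ‖ ≤ |C| * K := by
      rw [hv] at hγn
      exact hγn.trans (mul_le_mul (le_abs_self C) h4 (norm_nonneg _) (abs_nonneg _))
    have e : evl y (D j (S a)) = ∑ b, γ b * vl y S b := by
      simp only [S, D_nuS, evl_nuS, vl]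
      rw [← hv, ← hγ, frameMap_apply]
      simp only [map_sum, map_smul, smul_eq_mul]
    rw [e]
    refine (abs_sum_le_sum_abs _ _).trans ?_
    have : ∀ b, |γ b * vl y S b| ≤ |C| * K * ‖vl y S‖ := by
      intro b
      rw [abs_mul]
      exact mul_le_mul ((norm_le_pi_norm γ b).trans h5) (norm_le_pi_norm (vl y S) b)
        (abs_nonneg _) ((norm_nonneg _).trans h5)
    refine (sum_le_sum fun b _ => this b).trans (le_of_eq ?_)
    simp only [sum_const, card_univ, nsmul_eq_mul]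
    ring
  filter_upwards [Metric.ball_mem_nhds y1 hr] with y hy
  set K0 := Fintype.card (Option (Fin n)) * |C| * K with hK0
  set h := y - y1 with hh
  have hline : ∀ t ∈ Set.Icc (0 : ℝ) 1, y1 + t • h ∈ Metric.ball y1 r := by
    intro t ht
    exact (convex_ball y1 r).add_smul_sub_mem (Metric.mem_ball_self hr) hy ht
  have hder : ∀ t : ℝ, HasDerivAt (fun t : ℝ => vl (y1 + t • h) S)
      (fun a => ∑ j, h j * evl (y1 + t • h) (D j (S a))) t := by
    intro t
    rw [hasDerivAt_pi]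
    intro a
    have h1 : HasDerivAt (fun t : ℝ => y1 + t • h) h t := by
      simpa using ((hasDerivAt_id t).smul_const h).const_add y1
    have h2 := ((S a).diff (y1 + t • h)).hasFDerivAt.comp_hasDerivAt t h1
    rw [fderiv_eq_sum] at h2
    exact h2
  have hz := eq_zero_of_abs_deriv_le_mul_abs_self_of_eq_zero_right
    (f := fun t : ℝ => vl (y1 + t • h) S) (K := (∑ j, |h j|) * K0) (a := 0) (b := 1)
    (fun t _ => (hder t).continuousAt.continuousWithinAt)
    (fun t _ => (hder t).hasDerivWithinAt)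
    (by
      funext a
      simp only [zero_smul, add_zero, vl, S, evl_nuS, Pi.zero_apply]
      obtain ⟨v, hv⟩ := jet_mem u y1 a
      rw [← hv]; exact hν v)
    (by
      intro t ht
      have hK0pos : 0 ≤ K0 := by
        have : 0 ≤ K := by
          have : 0 ≤ ∑ j, ∑ a, ‖vl y1 (Dv j (jet u a))‖ :=
            sum_nonneg fun j _ => sum_nonneg fun a _ => norm_nonneg _
          linarith
        positivity
      have hs : 0 ≤ ∑ j, |h j| := sum_nonneg fun j _ => abs_nonneg _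
      rw [pi_norm_le_iff_of_nonneg (by positivity)]
      intro a
      rw [Real.norm_eq_abs, mul_assoc, sum_mul]
      refine (abs_sum_le_sum_abs _ _).trans (sum_le_sum fun j _ => ?_)
      rw [abs_mul]
      exact mul_le_mul_of_nonneg_left (key _ (hline t (Set.Ico_subset_Icc_self ht)) j a)
        (abs_nonneg _))
    1 ⟨zero_le_one, le_rfl⟩
  have := congrFun hz none
  simpa [hh, vl, S, jet] using this

end Pool.Agent.P.MP_f97e06_gt
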