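import Pool.Agent.P.MP_f97e06_gt.LocalGeom

/-! Local rigidity theorem. -/

namespace Pool.Agent.P.MP_f97e06_gt

open scoped ContDiff Topology
open Filter Finset Module

variable {n : ℕ} {ι : Type*} [Fintype ι] [DecidableEq ι]

omit [DecidableEq ι] in
theorem bf_sum_smul_left {κ : Type*} [Fintype κ] (ε : ι → ℝ) (c : κ → ℝ) (f : κ → ι → ℝ)
    (y : ι → ℝ) : bf ε (∑ a, c a • f a) y = ∑ a, c a * bf ε (f a) y := by
  simp only [bf, Finset.sum_apply, Pi.smul_apply, smul_eq_mul, sum_mul, mul_sum]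
  rw [sum_comm]
  exact sum_congr rfl fun a _ => sum_congr rfl fun i _ => by ring

theorem local_rigid {U : Set (Eu n)} (hU : IsOpen U) (a : Fin n → Fin n → Sm n)
    (ha : ∀ j k, a j k = a k j)
    (hpos : ∀ y ∈ U, ∀ ξ : Fin n → ℝ, ξ ≠ 0 → 0 < qf (fun k l => evl y (a k l)) ξ)
    (c : Sm n) (u : ι → Sm n) (ε : ι → ℝ) (hε : ∀ i, ε i = 1 ∨ ε i = -1)
    (hcard : Nat.card {i // ε i = 1} ≤ 3)
    (heq : ∀ i, ∀ y ∈ U, evl y (dvg D (flux D a (u i)) - c * u i) = 0)
    (h0 : ∀ y ∈ U, bf ε (vl y u) (vl y u) = 0)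
    (h2 : ∀ j k, ∀ y ∈ U, bf ε (vl y (Dv j u)) (vl y (Dv k u)) = 0)
    (hne : ∃ y ∈ U, vl y u ≠ 0) :
    ∃ y ∈ U, ∃ ζ : ι → ℝ, ζ ≠ 0 ∧ ∑ i, cst (ζ i) * u i ∈ germ0 y := by
  -- the differentiated identities
  have h1 : ∀ j, ∀ y ∈ U, bf ε (vl y u) (vl y (Dv j u)) = 0 := by
    intro j y hy
    have := bD_zero_on hU ε h0 j y hy
    rw [bf_comm ε (vl y (Dv j u))] at this
    linarith
  have h3 : ∀ i j, ∀ y ∈ U, bf ε (vl y (Dv i (Dv j u))) (vl y u) = 0 := by
    intro i j y hy
    have := bD_zero_on hU ε (h1 j) i y hy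
    rw [h2 i j y hy, zero_add] at this
    rw [bf_comm]; exact this
  have h4 : ∀ i j k, ∀ y ∈ U, bf ε (vl y (Dv i (Dv j u))) (vl y (Dv k u)) = 0 := by
    intro i j k y hy
    have t : ∀ i j k, bf ε (vl y (Dv k (Dv i u))) (vl y (Dv j u)) +
        bf ε (vl y (Dv k (Dv j u))) (vl y (Dv i u)) = 0 := by
      intro i j k
      have := bD_zero_on hU ε (h2 i j) k y hy
      rwa [bf_comm ε (vl y (Dv i u))] at this
    have t1 := t j k i
    have t2 := t i k j
    have t3 := t i j k
    rw [Dv_comm j i, Dv_comm j k] at t2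
    rw [Dv_comm k i] at t3
    linarith
  have h5 : ∀ i j k l, ∀ y ∈ U, bf ε (vl y (Dv i (Dv j u))) (vl y (Dv l (Dv k u))) =
      bf ε (vl y (Dv i (Dv l u))) (vl y (Dv j (Dv k u))) := by
    intro i j k l y hy
    have t1 := bD_zero_on hU ε (h4 i j k) l y hy
    have t2 := bD_zero_on hU ε (h4 i l k) j y hy
    have e : Dv l (Dv i (Dv j u)) = Dv j (Dv i (Dv l u)) := by
      rw [Dv_comm l i, Dv_comm l j, Dv_comm i j]
    rw [e] at t1
    linarith
  -- a point of maximal rank
  set W : Set (Eu n) := {y | y ∈ U ∧ vl y u ≠ 0} with hW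
  have hWo : IsOpen W := hU.inter (isOpen_ne_fun (vl_cont u) continuous_const)
  let rk : Eu n → ℕ := fun y =>
    finrank ℝ (LinearMap.range (frameMap u y : (Option (Fin n) → ℝ) →ₗ[ℝ] (ι → ℝ)))
  obtain ⟨x0, hx0, hmax⟩ : ∃ x0 ∈ W, ∀ y ∈ W, rk y ≤ rk x0 := by
    have hbdd : ∀ y, rk y ≤ finrank ℝ (ι → ℝ) := fun y => Submodule.finrank_le _
    have hfin : (rk '' W).Finite :=
      (Set.finite_Iic (finrank ℝ (ι → ℝ))).subset (by rintro _ ⟨y, -, rfl⟩; exact hbdd y)
    obtain ⟨y, hy, hyne⟩ := hne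
    obtain ⟨_, ⟨x0, hx0, rfl⟩, hm⟩ := hfin.exists_maximal ⟨rk y, y, ⟨hy, hyne⟩, rfl⟩
    refine ⟨x0, hx0, fun z hz => ?_⟩
    rcases le_total (rk z) (rk x0) with h | h
    · exact h
    · exact hm ⟨z, hz, rfl⟩ h
  obtain ⟨C, -, hC⟩ := uniform_frame (frameMap u) x0 (frameMap_cont u).continuousAt
    (Filter.eventually_of_mem (hWo.mem_nhds hx0) hmax)
  have hmem : ∀ᶠ y in 𝓝 x0, ∀ j a, ∃ v, frameMap u y v = vl y (Dv j (jet u a)) := by
    filter_upwards [hC.eventually_nhds, hWo.mem_nhds hx0] with y hyC hy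
    set E := LinearMap.range (frameMap u y : (Option (Fin n) → ℝ) →ₗ[ℝ] (ι → ℝ)) with hE
    have hjet : ∀ a b, bf ε (vl y (jet u a)) (vl y (jet u b)) = 0 := by
      rintro (_ | j) (_ | k)
      · exact h0 y hy.1
      · exact h1 k y hy.1
      · rw [bf_comm]; exact h1 j y hy.1
      · exact h2 j k y hy.1
    have horth : ∀ x : ι → ℝ, (∀ b, bf ε x (vl y (jet u b)) = 0) → ∀ z ∈ E, bf ε x z = 0 := by
      rintro x hx _ ⟨v, rfl⟩
      change bf ε x (frameMap u y v) = 0
      rw [bf_comm, frameMap_apply, bf_sum_smul_left]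
      exact sum_eq_zero fun b _ => by rw [bf_comm, hx b, mul_zero]
    have key := pointwise_rigid ε hε hcard (fun k l => evl y (a k l))
      (fun i j => by rw [ha i j]) (hpos y hy.1) E (vl y u) (fun i => vl y (Dv i u))
      (fun i j => vl y (Dv i (Dv j u))) (jet_mem u y none) hy.2 (fun i => jet_mem u y (some i))
      (fun i j => by rw [Dv_comm])
      (fun x hx z hz => by
        rw [bf_comm]
        refine horth z (fun b => ?_) x hx
        rw [bf_comm]
        exact horth _ (hjet b) z hz)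
      (fun i j => horth _ (by
        rintro (_ | k)
        · exact h3 i j y hy.1
        · exact h4 i j k y hy.1))
      (fun i j k l => h5 i j k l y hy.1)
      (by
        have e : ∑ i, ∑ j, evl y (a i j) • vl y (Dv i (Dv j u)) =
            evl y c • vl y u - ∑ i, ∑ j, evl y (D i (a i j)) • vl y (Dv j u) := by
          funext b
          have := heq b y hy.1
          simp only [dvg, flux, map_sum, der_mul, map_add, map_sub, map_mul,
            sum_add_distrib] at this
          simp only [Finset.sum_apply, Pi.smul_apply, smul_eq_mul, Pi.sub_apply, vl, Dv]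
          linarith
        rw [e]
        exact E.sub_mem (E.smul_mem _ (jet_mem u y none))
          (E.sum_mem fun i _ => E.sum_mem fun j _ => E.smul_mem _ (jet_mem u y (some j))))
      (by
        intro ν hν c0 c1 c2 i k hrel j
        have hν' : ∀ v, ν (frameMap u y v) = 0 := fun v => hν _ ⟨v, rfl⟩
        have := second_order u y C hyC ν hν'
          (Pi.single none c0 + Pi.single (some i) c1 + Pi.single (some k) c2) (by
            rw [← hrel, map_add, map_add]
            simp [frameMap_apply, Pi.single_apply, jet]) j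
        have h6 : ν (vl y (Dv j u)) = 0 := hν _ (jet_mem u y (some j))
        simpa [add_mul, sum_add_distrib, Pi.single_apply, jet, h6] using this)
    rintro j (_ | k)
    · exact jet_mem u y (some j)
    · exact key j k
  have hlt : LinearMap.range (frameMap u x0 : (Option (Fin n) → ℝ) →ₗ[ℝ] (ι → ℝ)) < ⊤ := by
    rw [lt_top_iff_ne_top]
    intro htop
    obtain ⟨i, -⟩ := Function.ne_iff.1 hx0.2
    have hi : (Pi.single i 1 : ι → ℝ) ∈
        LinearMap.range (frameMap u x0 : (Option (Fin n) → ℝ) →ₗ[ℝ] (ι → ℝ)) := by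
      rw [htop]; trivial
    obtain ⟨v, hv⟩ := hi
    have hjet : ∀ a b, bf ε (vl x0 (jet u a)) (vl x0 (jet u b)) = 0 := by
      rintro (_ | j) (_ | k)
      · exact h0 x0 hx0.1
      · exact h1 k x0 hx0.1
      · rw [bf_comm]; exact h1 j x0 hx0.1
      · exact h2 j k x0 hx0.1
    have : bf ε (frameMap u x0 v) (frameMap u x0 v) = 0 := by
      rw [frameMap_apply, bf_sum_smul_left]
      refine sum_eq_zero fun b _ => ?_
      rw [bf_comm, bf_sum_smul_left]
      simp [hjet]
    have hv' : frameMap u x0 v = Pi.single i 1 := hv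
    rw [hv'] at this
    simp [bf, Pi.single_apply] at this
    rcases hε i with h | h <;> simp [h] at this
  obtain ⟨ν, hν0, hν⟩ := Submodule.exists_le_ker_of_lt_top _ hlt
  refine ⟨x0, hx0.1, fun i => ν (Pi.single i 1), ?_, parallel u x0 C hC hmem ν
    (fun v => hν ⟨v, rfl⟩)⟩
  intro h
  apply hν0
  ext i
  simpa using congrFun h i

end Pool.Agent.P.MP_f97e06_gt
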