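import Pool.Agent.P.MP_f97e06_gt.Carleman

/-! Local unique continuation across a sphere. -/

namespace Pool.Agent.P.MP_f97e06_gt

open scoped ContDiff Topology
open MeasureTheory Filter Finset

variable {n : ℕ}

/-- Existence of a good Carleman weight at a boundary point of a ball. -/
theorem exists_weight (a : Fin n → Fin n → Sm n) (ha : ∀ j k, a j k = a k j) (y0 z : Eu n)
    (hpos : ∀ ξ : Fin n → ℝ, ξ ≠ 0 → 0 < qf (fun k l => evl y0 (a k l)) ξ)
    (hR : 0 < dist y0 z) :
    ∃ (φ : Sm n) (m : ℝ), evl y0 φ = 0 ∧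
      (∀ᶠ y in 𝓝 y0, dist y0 z ≤ dist y z → evl y φ ≤ -dist y y0 ^ 2) ∧
      (∀ ξ : Fin n → ℝ, ∑ i, ξ i ^ 2 ≤
        qf (fun k l => evl y0 (gradForm D a (flux D a φ) (cst m) k l)) ξ) ∧
      2 ≤ evl y0 (dir D (flux D a φ) (dir D (flux D a φ) φ)
          - (cst m - dvg D (flux D a φ)) * dir D (flux D a φ) φ) := by
  set R := dist y0 z with hRdef
  obtain ⟨lam, hlam, hco⟩ := qf_coercive _ hpos
  let ν : Fin n → ℝ := fun j => (z j - y0 j) / R
  let h : Fin n → Sm n := fun j => crd j - cst (y0 j)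
  let t : Sm n := ∑ j, cst (ν j) * h j
  let s : Sm n := ∑ j, h j * h j
  let φ0 : Sm n := t - cst (1 / R + 1) * s
  have hDh : ∀ j i, D j (h i) = if i = j then 1 else 0 := by
    intro j i; simp [h, D_crd]
  have hh0 : ∀ j, evl y0 (h j) = 0 := by intro j; simp [h]
  have ht0 : evl y0 t = 0 := by simp [t, hh0]
  have hDt : ∀ j, D j t = cst (ν j) := by
    intro j; simp [t, hDh]
  have hDs : ∀ j, evl y0 (D j s) = 0 := by
    intro j; simp only [s, map_sum, der_mul, map_add, map_mul, hh0]; simp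
  have hφ0 : ∀ j, evl y0 (D j φ0) = evl y0 (D j t) := by
    intro j; simp only [φ0, map_sub, der_mul, D_cst, map_add, map_mul, hDs]; simp
  have hsy : ∀ y, evl y s = dist y y0 ^ 2 := by
    intro y
    rw [EuclideanSpace.dist_sq_eq]
    simp only [s, h, map_sum, map_mul, map_sub, evl_crd, evl_cst, Real.dist_eq, sq_abs]
    exact sum_congr rfl fun j _ => by ring
  have hR2 : R ^ 2 = ∑ j, (z j - y0 j) ^ 2 := by
    rw [hRdef, dist_comm, EuclideanSpace.dist_sq_eq]
    simp only [Real.dist_eq, sq_abs]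
  have hν : ν ≠ 0 := by
    intro h0
    have : ∀ j, z j - y0 j = 0 := by
      intro j
      have := congrFun h0 j
      simpa [ν, hR.ne'] using this
    simp only [this] at hR2
    simp at hR2
    exact hR.ne' hR2
  have hty : ∀ y, dist y z ^ 2 = dist y y0 ^ 2 - 2 * R * evl y t + R ^ 2 := by
    intro y
    rw [hR2, EuclideanSpace.dist_sq_eq, EuclideanSpace.dist_sq_eq]
    simp only [t, h, ν, map_sum, map_mul, map_sub, evl_crd, evl_cst, Real.dist_eq, sq_abs, mul_sum,
      ← sum_add_distrib, ← sum_sub_distrib]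
    refine sum_congr rfl fun j _ => ?_
    field_simp
    ring
  -- the constants
  set α := evl y0 (dir D (flux D a φ0) φ0) with hα
  have hαpos : 0 < α := by
    have : α = qf (fun k l => evl y0 (a k l)) ν := by
      simp only [hα, dir, flux, qf, map_sum, map_mul, hφ0, hDt, evl_cst, sum_mul]
      exact sum_congr rfl fun k _ => sum_congr rfl fun l _ => by ring
    rw [this]; exact hpos ν hν
  set β := evl y0 (dir D (flux D a φ0) (dir D (flux D a φ0) φ0)) with hβ
  let B : Fin n → Fin n → ℝ := fun k l =>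
    evl y0 (4 * (∑ j, a j k * D j (flux D a φ0 l)) - 2 * dir D (flux D a φ0) (a k l))
  set b := ∑ k, ∑ l, |B k l| with hb
  have hb0 : 0 ≤ b := sum_nonneg fun k _ => sum_nonneg fun l _ => abs_nonneg _
  set f0 := (1 + b) / (2 * lam) with hf0
  set κ := (2 + |β| + f0 * α) / (4 * α ^ 2) with hκ
  have hf0pos : 0 < f0 := by positivity
  have hκpos : 0 < κ := by positivity
  obtain ⟨c1, c2, c3, c4⟩ := convexify D a (evl y0) φ0 t (cst κ) (fun j => D_cst j κ) ht0 hφ0
  set φ := φ0 + cst κ * (t * t) with hφ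
  refine ⟨φ, evl y0 (dvg D (flux D a φ)) + f0, ?_, ?_, ?_, ?_⟩
  · simp [hφ, φ0, ht0, hsy]
  · have hc : ContinuousAt (fun y => |κ * evl y t|) y0 :=
      ((continuous_const.mul (evl_cont t)).abs).continuousAt
    have : ∀ᶠ y in 𝓝 y0, |κ * evl y t| < 1 :=
      hc.eventually_lt continuousAt_const (by simp [ht0])
    filter_upwards [this] with y hy hd
    have h1 : R ^ 2 ≤ dist y z ^ 2 := pow_le_pow_left₀ hR.le hd 2
    rw [hty y] at h1
    simp only [hφ, φ0, map_add, map_sub, map_mul, evl_cst, hsy]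
    generalize evl y t = T at *
    have hS : 0 ≤ dist y y0 ^ 2 := sq_nonneg _
    generalize dist y y0 ^ 2 = S at *
    rw [abs_lt] at hy
    have h2 : 2 * T ≤ 1 / R * S := by
      rw [one_div, inv_mul_eq_div, le_div_iff₀ hR]; linarith
    have h3 : 0 ≤ 1 / R * S := by positivity
    rcases le_total T 0 with hT | hT
    · nlinarith [hy.1]
    · nlinarith [hy.2]
  · intro ξ
    have hw : ∀ k, ∑ j, evl y0 (a j k) * evl y0 (D j φ0) = evl y0 (flux D a φ0 k) := by
      intro k
      simp only [flux, map_sum, map_mul]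
      exact sum_congr rfl fun j _ => by rw [ha j k]
    have hd : ∀ g, evl y0 (dir D (flux D a φ) g) = evl y0 (dir D (flux D a φ0) g) := by
      intro g; simp only [dir, map_sum, map_mul, c1]
    have : (fun k l => evl y0 (gradForm D a (flux D a φ)
        (cst (evl y0 (dvg D (flux D a φ)) + f0)) k l)) = fun k l =>
        (B k l + (8 * κ) * (evl y0 (flux D a φ0 k) * evl y0 (flux D a φ0 l)))
          + (2 * f0) * evl y0 (a k l) := by
      funext k l
      simp only [gradForm, B, map_add, map_sub, map_mul, map_sum, map_ofNat, evl_cst, c2, hd,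
        mul_add, sum_add_distrib]
      rw [← hw k]
      simp only [mul_sum, sum_mul]
      have : ∑ i, 4 * (evl y0 (a i k) * (2 * κ * evl y0 (D i φ0) * evl y0 (flux D a φ0 l))) =
          ∑ i, 8 * κ * (evl y0 (a i k) * evl y0 (D i φ0) * evl y0 (flux D a φ0 l)) :=
        sum_congr rfl fun j _ => by ring
      rw [this]; ring
    rw [this, qf_add, qf_add, qf_const_mul, qf_const_mul, qf_rank_one]
    have h1 := abs_qf_le B ξ
    have h2 := neg_abs_le (qf B ξ)
    have h3 := hco ξ
    have h4 : 0 ≤ 8 * κ * (∑ k, evl y0 (flux D a φ0 k) * ξ k) ^ 2 := by positivity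
    have h5 : 2 * f0 * (lam * ∑ i, ξ i ^ 2) = (1 + b) * ∑ i, ξ i ^ 2 := by
      rw [hf0]; field_simp
    have h6 := mul_le_mul_of_nonneg_left h3 (show 0 ≤ 2 * f0 by positivity)
    rw [← hb] at h1
    linarith
  · simp only [map_sub, map_mul, evl_cst, c3, c4]
    have h1 : 4 * κ * α ^ 2 = 2 + |β| + f0 * α := by
      rw [hκ]; field_simp
    have h2 := neg_abs_le β
    rw [h1]
    linarith

theorem ucp_local (a : Fin n → Fin n → Sm n) (ha : ∀ j k, a j k = a k j) (c u : Sm n)
    (y0 z : Eu n) (hpos : ∀ ξ : Fin n → ℝ, ξ ≠ 0 → 0 < qf (fun k l => evl y0 (a k l)) ξ)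
    (heq : dvg D (flux D a u) - c * u ∈ germ0 y0) (hR : 0 < dist y0 z)
    (hu : ∀ᶠ y in 𝓝 y0, dist y z < dist y0 z → u ∈ germ0 y) : u ∈ germ0 y0 := by
  obtain ⟨φ, m, hφ0, hφ, hG, hQ⟩ := exists_weight a ha y0 z hpos hR
  set X := flux D a φ with hX
  set C := |evl y0 c| + |evl y0 (cst m - dvg D X)| + 1 with hC
  have e1 : ∀ᶠ y in 𝓝 y0, ∀ ξ, 0 ≤ qf (fun k l => evl y (gradForm D a X (cst m) k l)) ξ := by
    have hc : Continuous (fun y => ∑ k, ∑ l, |evl y (gradForm D a X (cst m) k l)
        - evl y0 (gradForm D a X (cst m) k l)|) :=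
      continuous_finsetSum _ fun k _ => continuous_finsetSum _ fun l _ =>
        ((evl_cont _).sub continuous_const).abs
    have := hc.continuousAt.eventually_lt (continuousAt_const (y := (1 : ℝ)) (x := y0)) (by simp)
    filter_upwards [this] with y hy ξ
    exact qf_nonneg_of_close _ _ hG hy.le ξ
  have e2 : ∀ᶠ y in 𝓝 y0, 1 < evl y (dir D X (dir D X φ) - (cst m - dvg D X) * dir D X φ) :=
    continuousAt_const.eventually_lt (evl_cont _).continuousAt (by linarith)
  have e3 : ∀ᶠ y in 𝓝 y0, |evl y c| < C :=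
    (evl_cont _).abs.continuousAt.eventually_lt continuousAt_const
      (by have := abs_nonneg (evl y0 (cst m - dvg D X)); linarith)
  have e4 : ∀ᶠ y in 𝓝 y0, |evl y (cst m - dvg D X)| < C :=
    (evl_cont _).abs.continuousAt.eventually_lt continuousAt_const
      (by have := abs_nonneg (evl y0 c); linarith)
  obtain ⟨δ, hδ, hball⟩ := Metric.nhds_basis_closedBall.eventually_iff.1
    (e1.and (e2.and (e3.and (e4.and (hφ.and (hu.and (germ0_eventually heq)))))))
  let χ : ContDiffBump y0 := ⟨δ / 2, δ, by linarith, by linarith⟩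
  set η := (δ / 2) ^ 2 with hη
  have hηpos : 0 < η := by positivity
  set w := bump χ * u with hw
  set r := dvg D (flux D a w) - c * w with hr
  have hgerm : ∀ y : Eu n, ∀ f ∈ germ0 y, ∀ j, D j f ∈ germ0 y := fun y f hf j => D_mem_germ0 hf j
  have hP : ∀ y : Eu n, ∀ f ∈ germ0 y, dvg D (flux D a f) - c * f ∈ germ0 y := fun y f hf =>
    Ideal.sub_mem _ (dvg_mem (hgerm y) (flux_mem (hgerm y) a hf)) (Ideal.mul_mem_left _ _ hf)
  have hout : ∀ y, y ∉ Metric.closedBall y0 δ → w ∈ germ0 y := by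
    intro y hy
    refine Ideal.mul_mem_right _ _ ?_
    have : y ∉ tsupport χ := by rw [χ.tsupport_eq]; exact hy
    exact notMem_tsupport_iff_eventuallyEq.1 this
  have hin : ∀ y ∈ Metric.ball y0 (δ / 2), w - u ∈ germ0 y := by
    intro y hy
    filter_upwards [χ.eventuallyEq_one_of_mem_ball hy] with x hx
    simp [hw, evl_bump, hx]
  have hrφ : ∀ y, evl y r = 0 ∨ evl y φ ≤ -η := by
    intro y
    by_cases h1 : y ∈ Metric.closedBall y0 δ
    · obtain ⟨-, -, -, -, h5, h6, h7⟩ := hball h1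
      by_cases h2 : y ∈ Metric.ball y0 (δ / 2)
      · left
        have := Ideal.add_mem _ (hP y _ (hin y h2)) h7
        rw [dvg_flux_sub] at this
        have h8 := germ0_self this
        rw [← h8, hr]; congr 1; ring
      · by_cases h3 : dist y z < dist y0 z
        · left
          exact germ0_self (hP y _ (Ideal.mul_mem_left _ _ (h6 h3)))
        · right
          have h9 : δ / 2 ≤ dist y y0 := by simpa using h2
          have := pow_le_pow_left₀ (by positivity) h9 2
          have := h5 (not_lt.1 h3)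
          linarith
    · left; exact germ0_self (hP y _ (hout y h1))
  have hwc : w ∈ cptI n := Ideal.mul_mem_right _ _ χ.hasCompactSupport
  have hcpt : ∀ f ∈ cptI n, ∀ j, D j f ∈ cptI n := fun f hf j => D_mem_cptI hf j
  have hrc : r ∈ cptI n :=
    Ideal.sub_mem _ (dvg_mem hcpt (flux_mem hcpt a hwc)) (Ideal.mul_mem_left _ _ hwc)
  -- the small bump
  have e5 : ∀ᶠ y in 𝓝 y0, -η < evl y φ :=
    continuousAt_const.eventually_lt (evl_cont _).continuousAt (by rw [hφ0]; linarith)
  obtain ⟨δ', hδ', hball'⟩ := Metric.nhds_basis_closedBall.eventually_iff.1 e5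
  let χ' : ContDiffBump y0 := ⟨δ' / 2, δ', by linarith, by linarith⟩
  set g := bump χ' * (w * w) with hg
  have hgc : g ∈ cptI n := Ideal.mul_mem_right _ _ χ'.hasCompactSupport
  have hg0 : ∀ y, 0 ≤ evl y g := by
    intro y
    simp only [hg, map_mul, evl_bump]
    exact mul_nonneg χ'.nonneg (mul_self_nonneg _)
  have main : ∀ τ : ℝ, 0 ≤ τ → 0 ≤ τ ^ 3 - C ^ 2 * (1 + τ) ^ 2 →
      (τ ^ 3 - C ^ 2 * (1 + τ) ^ 2) * ∫ y, evl y g ≤ ∫ y, evl y (r * r) := by
    intro τ hτ hN
    set N := τ ^ 3 - C ^ 2 * (1 + τ) ^ 2 with hNdef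
    set W := mulField D a X (dir D X φ) (sexp (cst τ * φ) * w) (cst τ) (cst m) with hW
    have hWc : ∀ j, W j ∈ cptI n := fun j =>
      mulField_mem hcpt _ _ _ _ _ (Ideal.mul_mem_left _ _ hwc) j
    set E := Real.exp (τ * (-η)) with hE
    have hEpos : 0 < E := Real.exp_pos _
    have pw : ∀ y, 2 * N * E ^ 2 * evl y g + evl y (dvg D W) ≤ 2 * E ^ 2 * evl y (r * r) := by
      intro y
      have hp := pointwise_carleman a ha φ c w m τ C hτ y (by
        by_cases h1 : y ∈ Metric.closedBall y0 δ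
        · obtain ⟨h1, h2, h3, h4, -⟩ := hball h1
          exact Or.inr ⟨h1, h2.le, h3.le, h4.le⟩
        · exact Or.inl (hout y h1))
      rw [← hNdef, ← hX, ← hW, ← hr] at hp
      have b1 : E ^ 2 * evl y g ≤ (Real.exp (τ * evl y φ) * evl y w) ^ 2 := by
        simp only [hg, map_mul, evl_bump]
        by_cases h1 : y ∈ Metric.closedBall y0 δ'
        · have h2 : E ≤ Real.exp (τ * evl y φ) :=
            Real.exp_le_exp.2 (mul_le_mul_of_nonneg_left (hball' h1).le hτ)
          have h3 : χ' y * (evl y w * evl y w) ≤ evl y w ^ 2 := by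
            have := mul_le_mul_of_nonneg_right (χ'.le_one (x := y)) (mul_self_nonneg (evl y w))
            linarith
          rw [mul_pow]
          exact mul_le_mul (pow_le_pow_left₀ hEpos.le h2 2) h3
            (mul_nonneg χ'.nonneg (mul_self_nonneg _)) (sq_nonneg _)
        · have : χ' y = 0 := χ'.zero_of_le_dist (le_of_lt (by simpa using h1))
          rw [this, zero_mul, mul_zero]; exact sq_nonneg _
      have b2 : (Real.exp (τ * evl y φ) * evl y r) ^ 2 ≤ E ^ 2 * evl y (r * r) := by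
        rcases hrφ y with h | h
        · simp [h]
        · rw [mul_pow, map_mul, ← sq]
          refine mul_le_mul_of_nonneg_right (pow_le_pow_left₀ (Real.exp_pos _).le ?_ 2)
            (sq_nonneg _)
          exact Real.exp_le_exp.2 (mul_le_mul_of_nonneg_left h hτ)
      have b3 := mul_le_mul_of_nonneg_left b1 (show 0 ≤ 2 * N by positivity)
      linarith
    have i1 := integrable_of_mem_cptI hgc
    have i2 := integrable_of_mem_cptI (dvg_mem hcpt hWc)
    have i3 := integrable_of_mem_cptI (Ideal.mul_mem_left _ r hrc)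
    have := integral_mono ((i1.const_mul (2 * N * E ^ 2)).add i2) (i3.const_mul (2 * E ^ 2)) pw
    simp only [Pi.add_apply] at this
    rw [integral_add (i1.const_mul _) i2, integral_const_mul, integral_const_mul,
      integral_dvg_eq_zero hWc, add_zero] at this
    have h2 : 0 < 2 * E ^ 2 := by positivity
    refine le_of_mul_le_mul_left ?_ h2
    linarith
  have hI : ∫ y, evl y g = 0 := by
    have hI0 : 0 ≤ ∫ y, evl y g := integral_nonneg hg0
    by_contra hne
    have hIpos : 0 < ∫ y, evl y g := lt_of_le_of_ne hI0 (Ne.symm hne)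
    have hJ : 0 ≤ ∫ y, evl y (r * r) := integral_nonneg fun y => by
      simp only [map_mul]; exact mul_self_nonneg _
    generalize ∫ y, evl y g = I at *
    generalize ∫ y, evl y (r * r) = J at *
    set τ := 1 + 4 * C ^ 2 + J / I with hτ
    have hJI : 0 ≤ J / I := by positivity
    have hC2 : 0 ≤ C ^ 2 := sq_nonneg _
    have hτ1 : 1 ≤ τ := by linarith
    have hN : 1 + J / I ≤ τ ^ 3 - C ^ 2 * (1 + τ) ^ 2 := by
      have h1 : (1 + τ) ^ 2 ≤ 4 * τ ^ 2 := by nlinarith
      have h2 : C ^ 2 * (1 + τ) ^ 2 ≤ C ^ 2 * (4 * τ ^ 2) := mul_le_mul_of_nonneg_left h1 hC2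
      have h3 : 1 ≤ τ ^ 2 := by nlinarith
      have h4 : τ ^ 3 - C ^ 2 * (4 * τ ^ 2) = τ ^ 2 * (1 + J / I) := by rw [hτ]; ring
      nlinarith
    have := main τ (by linarith) (by linarith)
    have h5 := mul_le_mul_of_nonneg_right hN hIpos.le
    have h6 : (1 + J / I) * I = I + J := by field_simp
    linarith
  have hgz : ∀ y, evl y g = 0 := by
    have := (integral_eq_zero_iff_of_nonneg hg0 (integrable_of_mem_cptI hgc)).1 hI
    have h2 := (Continuous.ae_eq_iff_eq volume (evl_cont g) continuous_zero).1 this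
    exact fun y => congrFun h2 y
  have hw0 : w ∈ germ0 y0 := by
    filter_upwards [χ'.eventuallyEq_one] with y hy
    have := hgz y
    simpa [hg, evl_bump, hy] using this
  have := Ideal.sub_mem _ hw0 (hin y0 (Metric.mem_ball_self (by linarith)))
  simpa using this

end Pool.Agent.P.MP_f97e06_gt
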