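import Pool.Agent.P.MP_f97e06_gt.Invariance
import Pool.Agent.P.MP_f97e06_gt.UCP
import Pool.Agent.P.MP_f97e06_gt.Rigid

/-! Globalisation: a degenerate family of eigenfunctions has at least four plus signs and at
least four minus signs. -/

namespace Pool.Agent.P.MP_f97e06_gt

open scoped Manifold ContDiff Topology
open Filter Finset

variable {n : ℕ} {M : Type*} [TopologicalSpace M] [ChartedSpace (Eu n) M]
  [IsManifold (𝓡 n) ∞ M]

theorem localize (g : RiemMetric (Eu n) M) (lam : ℝ) {ι : Type*} [Fintype ι] (u : ι → M → ℝ)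
    (hu : ∀ i, IsEigenfunction g lam (u i)) (p : M) {y0 : Eu n}
    (hy0 : y0 ∈ (chartAt (Eu n) p).target) :
    ∃ (a : Fin n → Fin n → Sm n) (c : Sm n) (uS : ι → Sm n), (∀ j k, a j k = a k j) ∧
      (∀ᶠ y in 𝓝 y0, ∀ ξ : Fin n → ℝ, ξ ≠ 0 → 0 < qf (fun k l => evl y (a k l)) ξ) ∧
      (∀ i, (uS i).fn =ᶠ[𝓝 y0] u i ∘ (chartAt (Eu n) p).symm) ∧
      (∀ i, dvg D (flux D a (uS i)) - c * uS i ∈ germ0 y0) := by
  set e := chartAt (Eu n) p with he
  have ho := e.open_target
  choose aS haS using fun j k => exists_Sm_eventuallyEq ho hy0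
    ((sqrtdet_smooth g p).mul (metricInv_smooth g p j k))
  obtain ⟨c, hc⟩ := exists_Sm_eventuallyEq ho hy0
    ((contDiffOn_const (c := lam)).mul (sqrtdet_smooth g p))
  choose uS huS using fun i => exists_Sm_eventuallyEq ho hy0 (comp_symm_smooth (hu i).1 p)
  let a : Fin n → Fin n → Sm n := fun j k => cst (1 / 2) * (aS j k + aS k j)
  have ha : ∀ᶠ y in 𝓝 y0, ∀ j k, evl y (a j k) =
      √(metricMatrix g e y).det * (metricMatrix g e y)⁻¹ j k := by
    filter_upwards [eventually_all.2 fun j => eventually_all.2 (haS j), ho.mem_nhds hy0]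
      with y hy hyt j k
    have hs : (metricMatrix g e y)⁻¹ k j = (metricMatrix g e y)⁻¹ j k := by
      have := (metricMatrix_posDef g p hyt).inv.isHermitian.apply j k
      simpa using this
    simp only [a, map_mul, map_add, evl_cst]
    simp only [evl_apply, hy]
    rw [hs]; ring
  refine ⟨a, c, uS, fun j k => by simp only [a, add_comm], ?_, huS, fun i => ?_⟩
  · filter_upwards [ha, ho.mem_nhds hy0] with y hy hyt ξ hξ
    have hpd := metricMatrix_posDef g p hyt
    have h1 := hpd.inv.dotProduct_mulVec_pos hξ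
    have h2 : 0 < √(metricMatrix g e y).det := Real.sqrt_pos.2 hpd.det_pos
    refine lt_of_lt_of_eq (mul_pos h2 h1) ?_
    simp only [qf, hy, star_trivial, dotProduct, Matrix.mulVec, mul_sum]
    exact sum_congr rfl fun j _ => sum_congr rfl fun k _ => by ring
  · have hflux : ∀ᶠ y in 𝓝 y0, ∀ j, (flux D a (uS i) j).fn y = √(metricMatrix g e y).det *
        ∑ k, (metricMatrix g e y)⁻¹ j k * coordDeriv k (u i ∘ e.symm) y := by
      filter_upwards [ha, (huS i).fderiv (𝕜 := ℝ)] with y h1 h2 j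
      rw [← evl_apply]
      simp only [flux, map_sum, map_mul, h1, D_apply, h2, mul_sum, coordDeriv, mul_assoc]
      rfl
    filter_upwards [hflux.eventually_nhds, hc, huS i, ho.mem_nhds hy0] with y h1 h2 h3 hyt
    have hx : e.symm y ∈ e.source := e.map_target hyt
    have h4 := laplacianInChart_invariant g (hu i).1 p (e.symm y) hx (mem_chart_source _ _)
    have h5 := (hu i).2 (e.symm y)
    unfold laplaceBeltrami at h5
    rw [← h4, ← he, e.right_inv hyt] at h5
    unfold laplacianInChart at h5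
    have h6 : 0 < √(metricMatrix g e y).det :=
      Real.sqrt_pos.2 (metricMatrix_posDef g p hyt).det_pos
    rw [inv_mul_eq_iff_eq_mul₀ h6.ne'] at h5
    have h7 : evl y (dvg D (flux D a (uS i))) = ∑ j, coordDeriv j (fun z =>
        √(metricMatrix g e z).det *
          ∑ k, (metricMatrix g e z)⁻¹ j k * coordDeriv k (u i ∘ e.symm) z) y := by
      simp only [dvg, map_sum, D_apply]
      refine sum_congr rfl fun j _ => ?_
      unfold coordDeriv
      rw [Filter.EventuallyEq.fderiv_eq (h1.mono fun z hz => hz j)]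
      rfl
    rw [map_sub, map_mul, h7, h5, evl_apply, evl_apply, h2, h3]
    simp only [Function.comp]
    ring

theorem comb_eq {ι : Type*} [Fintype ι] (a : Fin n → Fin n → Sm n) (c : Sm n) (uS : ι → Sm n)
    (ζ : ι → ℝ) : dvg D (flux D a (∑ i, cst (ζ i) * uS i)) - c * ∑ i, cst (ζ i) * uS i =
      ∑ i, cst (ζ i) * (dvg D (flux D a (uS i)) - c * uS i) := by
  have h1 : ∀ j, flux D a (∑ i, cst (ζ i) * uS i) j = ∑ i, cst (ζ i) * flux D a (uS i) j := by
    intro j
    simp only [flux, map_sum, der_mul, D_cst, zero_mul, zero_add, mul_sum]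
    rw [sum_comm]
    exact sum_congr rfl fun i _ => sum_congr rfl fun k _ => by ring
  simp only [dvg, h1, map_sum, der_mul, D_cst, zero_mul, zero_add, mul_sub, sum_sub_distrib,
    mul_sum]
  congr 1
  · rw [sum_comm]
  · exact sum_congr rfl fun i _ => by ring

theorem ucp_global [PreconnectedSpace M] (g : RiemMetric (Eu n) M) (lam : ℝ) {ι : Type*} [Fintype ι]
    (u : ι → M → ℝ) (hu : ∀ i, IsEigenfunction g lam (u i)) (ζ : ι → ℝ) {x1 : M}
    (h : ∀ᶠ x in 𝓝 x1, ∑ i, ζ i * u i x = 0) (x : M) : ∑ i, ζ i * u i x = 0 := by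
  set w : M → ℝ := fun x => ∑ i, ζ i * u i x with hw
  set Z : Set M := {x | ∀ᶠ z in 𝓝 x, w z = 0} with hZ
  have hZo : IsOpen Z := isOpen_setOfPred_eventually_nhds
  have hZc : IsClosed Z := by
    rw [← closure_subset_iff_isClosed]
    intro x hx
    set e := chartAt (Eu n) x with he
    have hxs : x ∈ e.source := mem_chart_source _ _
    set T : Set (Eu n) := {y | ∀ᶠ z in 𝓝 y, w (e.symm z) = 0}ᶜ with hT
    have hTc : IsClosed T := isOpen_setOfPred_eventually_nhds.isClosed_compl
    by_contra hxZ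
    have hxT : e x ∈ T := by
      intro h1
      apply hxZ
      filter_upwards [(e.continuousAt hxs).eventually h1, e.open_source.mem_nhds hxs] with z h2 h3
      rwa [e.left_inv h3] at h2
    obtain ⟨r, hr, hball⟩ := Metric.isOpen_iff.1 e.open_target (e x) (e.map_source hxs)
    have hnb : e.source ∩ e ⁻¹' Metric.ball (e x) (r / 2) ∈ 𝓝 x :=
      inter_mem (e.open_source.mem_nhds hxs)
        ((e.continuousAt hxs).preimage_mem_nhds (Metric.ball_mem_nhds _ (by linarith)))
    obtain ⟨x', ⟨hx's, hx'b⟩, hx'Z⟩ := mem_closure_iff_nhds.1 hx _ hnb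
    have hzT : e x' ∉ T := by
      intro h1
      apply h1
      have h2 : ContinuousAt e.symm (e x') := e.continuousAt_symm (e.map_source hx's)
      have h3 : ∀ᶠ z in 𝓝 (e.symm (e x')), w z = 0 := by rw [e.left_inv hx's]; exact hx'Z
      exact h2.eventually h3
    obtain ⟨y0, hy0T, hy0d⟩ := hTc.exists_infDist_eq_dist ⟨_, hxT⟩ (e x')
    have hd1 : dist (e x') y0 ≤ dist (e x') (e x) := hy0d ▸ Metric.infDist_le_dist_of_mem hxT
    have hd2 : dist (e x') (e x) < r / 2 := hx'b
    have hy0t : y0 ∈ e.target := by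
      apply hball
      rw [Metric.mem_ball]
      have := dist_triangle_left y0 (e x) (e x')
      linarith
    obtain ⟨a, c, uS, ha, hpos, huS, heq⟩ := localize g lam u hu x hy0t
    have hwS : ∀ᶠ y in 𝓝 y0, evl y (∑ i, cst (ζ i) * uS i) = w (e.symm y) := by
      filter_upwards [eventually_all.2 huS] with y hy
      simp only [map_sum, map_mul, evl_cst, hw]
      simp only [evl_apply, hy, Function.comp, he]
    have key := ucp_local a ha c (∑ i, cst (ζ i) * uS i) y0 (e x') hpos.self_of_nhds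
      (by
        rw [comb_eq]
        exact Ideal.sum_mem _ fun i _ => Ideal.mul_mem_left _ _ (heq i))
      (dist_pos.2 fun h1 => hzT (h1 ▸ hy0T))
      (by
        filter_upwards [hwS.eventually_nhds] with y hy hlt
        have hyT : y ∉ T := Metric.notMem_of_dist_lt_infDist (x := e x')
          (by rw [hy0d, dist_comm (e x') y, dist_comm (e x') y0]; exact hlt)
        have h1 : ∀ᶠ z in 𝓝 y, w (e.symm z) = 0 := not_not.1 hyT
        filter_upwards [hy, h1] with z h2 h3
        rw [h2, h3])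
    apply hy0T
    filter_upwards [hwS, mem_germ0.1 key] with z h2 h3
    rw [← h2, h3]
  have := IsClopen.eq_univ ⟨hZc, hZo⟩ ⟨x1, h⟩
  have hx : x ∈ Z := this ▸ Set.mem_univ x
  have hx' : ∀ᶠ z in 𝓝 x, w z = 0 := hx
  exact hx'.self_of_nhds

theorem four_le_card_plus [PreconnectedSpace M] (g : RiemMetric (Eu n) M) (lam : ℝ) {ι : Type*}
    [Fintype ι] [DecidableEq ι] [Nonempty ι] (u : ι → M → ℝ) (ε : ι → ℝ)
    (hli : LinearIndependent ℝ u) (hu : ∀ i, IsEigenfunction g lam (u i))
    (hε : ∀ i, ε i = 1 ∨ ε i = -1) (h0 : ∀ x, ∑ i, ε i * u i x ^ 2 = 0)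
    (h2 : ∀ (x : M) (v w : TangentSpace (𝓡 n) x),
      ∑ i, ε i * (mvfderiv (𝓡 n) (u i) x v * mvfderiv (𝓡 n) (u i) x w) = 0) :
    4 ≤ Nat.card {i // ε i = 1} := by
  by_contra hcard
  obtain ⟨i0⟩ := ‹Nonempty ι›
  obtain ⟨x, hx⟩ := Function.ne_iff.1 (hli.ne_zero i0)
  set e := chartAt (Eu n) x with he
  have hxs : x ∈ e.source := mem_chart_source _ _
  have hy0 : e x ∈ e.target := e.map_source hxs
  obtain ⟨a, c, uS, ha, hpos, huS, heq⟩ := localize g lam u hu x hy0
  obtain ⟨U, hU, hUo, hxU⟩ := eventually_nhds_iff.1 (hpos.and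
    ((eventually_all.2 fun i => (huS i).eventually_nhds).and
      ((eventually_all.2 fun i => mem_germ0.1 (heq i)).and (e.open_target.mem_nhds hy0))))
  have hval : ∀ y ∈ U, ∀ i, vl y uS i = u i (e.symm y) := fun y hy i =>
    ((hU y hy).2.1 i).self_of_nhds
  have hder : ∀ y ∈ U, ∀ i j, vl y (Dv j uS) i = mvfderiv (𝓡 n) (u i) (e.symm y)
      (mfderiv (𝓡 n) (𝓡 n) e.symm y (ev j)) := by
    intro y hy i j
    rw [mvfderiv_coordVec (hu i).1 x (hU y hy).2.2.2]
    have : (uS i).fn =ᶠ[𝓝 y] u i ∘ e.symm := (hU y hy).2.1 i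
    simp only [vl, Dv, D_apply, coordDeriv, this.fderiv_eq]
    rfl
  obtain ⟨y, hy, ζ, hζ, hg⟩ := local_rigid hUo a ha (fun y hy => (hU y hy).1) c uS ε hε
    (by omega) (fun i y hy => (hU y hy).2.2.1 i)
    (fun y hy => by simpa only [bf, hval y hy, sq] using h0 (e.symm y))
    (fun j k y hy => by simpa only [bf, hder y hy] using h2 (e.symm y) _ _)
    ⟨e x, hxU, fun h => hx (by
      have := congrFun h i0
      rwa [hval _ hxU, e.left_inv hxs] at this)⟩
  have hyt : y ∈ e.target := (hU y hy).2.2.2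
  have h3 : ∀ᶠ z in 𝓝 (e.symm y), ∑ i, ζ i * u i z = 0 := by
    have h4 : ∀ᶠ z in 𝓝 (e (e.symm y)), ∑ i, ζ i * u i (e.symm z) = 0 := by
      rw [e.right_inv hyt]
      filter_upwards [mem_germ0.1 hg, hUo.mem_nhds hy] with z h5 h6
      simp only [map_sum, map_mul, evl_cst] at h5
      simpa only [← hval z h6, vl] using h5
    filter_upwards [(e.continuousAt (e.map_target hyt)).eventually h4,
      e.open_source.mem_nhds (e.map_target hyt)] with z h5 h6
    rwa [e.left_inv h6] at h5
  apply hζ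
  funext i
  refine Fintype.linearIndependent_iff.1 hli ζ ?_ i
  funext z
  simpa using ucp_global g lam u hu ζ h3 z

theorem eight_le [PreconnectedSpace M] (g : RiemMetric (Eu n) M) (lam : ℝ) {k : ℕ} (hk : 1 ≤ k)
    (u : Fin k → M → ℝ) (ε : Fin k → ℝ)
    (hli : LinearIndependent ℝ u) (hu : ∀ i, IsEigenfunction g lam (u i))
    (hε : ∀ i, ε i = 1 ∨ ε i = -1) (h0 : ∀ x, ∑ i, ε i * u i x ^ 2 = 0)
    (h2 : ∀ (x : M) (v w : TangentSpace (𝓡 n) x),
      ∑ i, ε i * (mvfderiv (𝓡 n) (u i) x v * mvfderiv (𝓡 n) (u i) x w) = 0) : 8 ≤ k := by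
  have : Nonempty (Fin k) := ⟨⟨0, hk⟩⟩
  have h1 := four_le_card_plus g lam u ε hli hu hε h0 h2
  have h3 := four_le_card_plus g lam u (fun i => -ε i) hli hu
    (fun i => by rcases hε i with h | h <;> simp [h])
    (fun x => by simpa [neg_mul, sum_neg_distrib] using h0 x)
    (fun x v w => by simpa [neg_mul, sum_neg_distrib] using h2 x v w)
  have h4 : Nat.card {i // -ε i = 1} = Nat.card {i // ¬ ε i = 1} := by
    refine Nat.card_congr (Equiv.subtypeEquivRight fun i => ?_)
    rcases hε i with h | h <;> simp [h] <;> norm_num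
  classical
  rw [h4, Nat.card_eq_fintype_card, Fintype.card_subtype_compl, Fintype.card_fin,
    ← Nat.card_eq_fintype_card] at h3
  omega

theorem eight_le_multiplicity [PreconnectedSpace M] (g : RiemMetric (Eu n) M) (lam : ℝ)
    (h : IsDegenerateEigenvalue g lam) : 8 ≤ eigenMultiplicity g lam := by
  obtain ⟨-, -, k, u, ε, hk, hli, hu, hε, h0, h2⟩ := h
  have h8 := eight_le g lam hk u ε hli hu hε h0 h2
  let S := Submodule.span ℝ {u : M → ℝ | IsEigenfunction g lam u}
  have hli' : LinearIndependent ℝ (fun i => (⟨u i, Submodule.subset_span (hu i)⟩ : S)) :=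
    LinearIndependent.of_comp S.subtype hli
  have := hli'.cardinal_lift_le_rank
  simp only [Cardinal.mk_fintype, Fintype.card_fin, Cardinal.lift_natCast,
    Cardinal.lift_uzero] at this
  exact le_trans (by exact_mod_cast h8) this

end Pool.Agent.P.MP_f97e06_gt
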